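import Pool.Agent.H219_EQ.A

/-!
# Homomorphisms with a surviving letter in every image
-/

set_option autoImplicit false

namespace Pool.Agent.H219_PCP

open FreeGroup hiding norm map_mul map_inv map_one
open Pool.Agent.H219_EQ

section words
variable {Δ : Type} [DecidableEq Δ]

/-- the reduced word of a product -/
theorem mul_word (u v : FreeGroup Δ) : ∃ p l m : List (Δ × Bool), u⁻¹.toWord = p ++ l ∧
    v.toWord = p ++ m ∧ p.length = lcpl u⁻¹.toWord v.toWord ∧ (u * v).toWord = invRev l ++ m := by
  obtain ⟨p, l, m, h1, h2, h3, h4⟩ := lcpl_split u⁻¹.toWord v.toWord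
  refine ⟨p, l, m, h1, h2, h3, ?_⟩
  have hu : u⁻¹ = mk p * mk l := by
    rw [mul_mk, ← h1, mk_toWord]
  have hv : v = mk p * mk m := by
    rw [mul_mk, ← h2, mk_toWord]
  have hl : IsReduced l := IsReduced_right (L := p) (by rw [← h1]; exact isReduced_toWord)
  have hm : IsReduced m := IsReduced_right (L := p) (by rw [← h2]; exact isReduced_toWord)
  have huv : u * v = mk (invRev l ++ m) := by
    have : u = (u⁻¹)⁻¹ := (inv_inv u).symm
    rw [this, hu, hv, ← mul_mk, ← inv_mk]
    group
  have hred : IsReduced (invRev l ++ m) := by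
    cases l with
    | nil => simpa using hm
    | cons a l' =>
      cases m with
      | nil => simpa using IsReduced_invRev hl
      | cons b m' =>
        have e : invRev (a :: l') = invRev l' ++ [(a.1, !a.2)] := by simp [invRev]
        rw [e]
        refine IsReduced.append_overlap (L₂ := [(a.1, !a.2)]) ?_ ?_ (by simp)
        · rw [← e]
          exact IsReduced_invRev hl
        · rw [List.singleton_append, isReduced_cons_cons]
          refine ⟨fun hab => ?_, hm⟩
          have hne := h4 a b l' m' rfl rfl
          have h5 : a.2 ≠ b.2 := fun h => hne (Prod.ext hab h)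
          revert h5
          cases a.2 <;> cases b.2 <;> simp
  rw [huv, toWord_mk_red hred]

theorem take_add_append {α : Type} (l m : List α) (k : ℕ) (h : k ≤ l.length) :
    (l ++ m).take k = l.take k := by
  rw [List.take_append_of_le_length h]

/-- the beginning of a product -/
theorem mul_start (A : List (Δ × Bool)) (hA : IsReduced A) (v : FreeGroup Δ) (k : ℕ)
    (hk : lcpl (invRev A) v.toWord + k ≤ A.length) :
    ∃ R, (mk A * v).toWord = A.take k ++ R := by
  obtain ⟨p, l, m, h1, h2, h3, h4⟩ := mul_word (mk A) v
  have e1 : (mk A)⁻¹.toWord = invRev A := by rw [toWord_inv, toWord_mk_red hA]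
  rw [e1] at h1 h3
  have e2 : A = invRev l ++ invRev p := by
    rw [← invRev_invRev (L₁ := A), h1]
    simp [invRev]
  have e3 : (invRev l).length = A.length - p.length := by
    have := congrArg List.length e2
    simp only [List.length_append, invRev_length] at this ⊢
    omega
  have e4 : k ≤ (invRev l).length := by
    rw [e3]
    omega
  refine ⟨(invRev l).drop k ++ m, ?_⟩
  rw [h4, ← List.append_assoc]
  congr 1
  conv_rhs => rw [e2, List.take_append_of_le_length e4]
  rw [List.take_append_drop]

theorem lcpl_take_append {α : Type} [DecidableEq α] (a b R : List α) (n : ℕ) (h : lcpl a b ≤ n)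
    (hn : n < b.length) : lcpl a (b.take (n + 1) ++ R) ≤ lcpl a b := by
  have h1 : n + 1 ≤ lcpl (b.take (n + 1) ++ R) b := by
    conv_rhs => rw [← List.take_append_drop (n + 1) b, List.take_append_of_le_length
      (by rw [List.length_take]; omega), List.take_take, min_self]
    rw [lcpl_append, List.length_take]
    omega
  have h2 := lcpl_ultra a (b.take (n + 1) ++ R) b
  omega

end words

set_option linter.unusedSectionVars false

section side
variable {A Δ : Type} [DecidableEq A] [DecidableEq Δ]

/-- the image of a signed letter -/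
def sU (U : A → List (Δ × Bool)) (x : A × Bool) : List (Δ × Bool) :=
  if x.2 then U x.1 else invRev (U x.1)

/-- the position of the surviving letter -/
def sP (U : A → List (Δ × Bool)) (P : A → ℕ) (x : A × Bool) : ℕ :=
  if x.2 then P x.1 else (U x.1).length - 1 - P x.1

/-- the small cancellation condition -/
structure Ok (U : A → List (Δ × Bool)) (P : A → ℕ) : Prop where
  red : ∀ a, IsReduced (U a)
  lt : ∀ a, P a < (U a).length
  ov : ∀ x y : A × Bool, x ≠ y → lcpl (sU U x) (sU U y) ≤ sP U P x

/-- the homomorphism -/
def hom (U : A → List (Δ × Bool)) : FreeGroup A →* FreeGroup Δ :=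
  FreeGroup.lift (fun a => FreeGroup.mk (U a))

omit [DecidableEq A] [DecidableEq Δ] in
theorem hom_of (U : A → List (Δ × Bool)) (a : A) : hom U (of a) = FreeGroup.mk (U a) := by
  simp [hom]

omit [DecidableEq A] [DecidableEq Δ] in
theorem hom_mk1 (U : A → List (Δ × Bool)) (x : A × Bool) :
    hom U (FreeGroup.mk [x]) = FreeGroup.mk (sU U x) := by
  obtain ⟨a, b⟩ := x
  cases b
  · have h : FreeGroup.mk [(a, false)] = (of a)⁻¹ := by simp [of, invRev]
    rw [h, map_inv, hom_of, inv_mk]
    rfl
  · exact hom_of U a

theorem sU_red {U : A → List (Δ × Bool)} {P : A → ℕ} (h : Ok U P) (x : A × Bool) :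
    IsReduced (sU U x) := by
  unfold sU
  split_ifs
  · exact h.red _
  · exact IsReduced_invRev (h.red _)

theorem sP_lt {U : A → List (Δ × Bool)} {P : A → ℕ} (h : Ok U P) (x : A × Bool) :
    sP U P x < (sU U x).length := by
  have := h.lt x.1
  unfold sP sU
  split_ifs
  · exact this
  · rw [invRev_length]
    omega

theorem sP_bar {U : A → List (Δ × Bool)} {P : A → ℕ} (h : Ok U P) (x : A × Bool) :
    sP U P (x.1, !x.2) + sP U P x + 1 = (sU U x).length := by
  have := h.lt x.1
  obtain ⟨a, b⟩ := x
  cases b <;> simp [sP, sU] at this ⊢ <;> omega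

omit [DecidableEq A] [DecidableEq Δ] in
theorem sU_bar (U : A → List (Δ × Bool)) (x : A × Bool) : sU U (x.1, !x.2) = invRev (sU U x) := by
  obtain ⟨a, b⟩ := x
  cases b <;> simp [sU]

/-- the image of a nonempty reduced word starts with the surviving part of the image of its first
letter -/
theorem start {U : A → List (Δ × Bool)} {P : A → ℕ} (h : Ok U P) :
    ∀ (L : List (A × Bool)) (x : A × Bool), IsReduced (x :: L) →
      ∃ R, (hom U (FreeGroup.mk (x :: L))).toWord = (sU U x).take (sP U P x + 1) ++ R := by
  intro L
  induction L with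
  | nil =>
    intro x _
    refine ⟨(sU U x).drop (sP U P x + 1), ?_⟩
    rw [hom_mk1, toWord_mk_red (sU_red h x), List.take_append_drop]
  | cons y L ih =>
    intro x hx
    rw [isReduced_cons_cons] at hx
    obtain ⟨R, hR⟩ := ih y hx.2
    have e : FreeGroup.mk (x :: y :: L) = FreeGroup.mk [x] * FreeGroup.mk (y :: L) := by simp
    rw [e, map_mul, hom_mk1]
    apply mul_start _ (sU_red h x)
    rw [hR, ← sU_bar]
    have hne : (x.1, !x.2) ≠ y := by
      intro h'
      have h1 := hx.1 (by rw [← h'])
      rw [← h'] at h1
      revert h1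
      cases x.2 <;> simp
    have h1 := h.ov y (x.1, !x.2) hne.symm
    have h2 := h.ov (x.1, !x.2) y hne
    rw [lcpl_comm] at h1
    have h3 := lcpl_take_append _ _ R _ h1 (sP_lt h y)
    have h4 := sP_bar h x
    omega

end side

end Pool.Agent.H219_PCP
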