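import Pool.Agent.H219_PCP.A

/-!
# Systems of rules for words between two state letters
-/

set_option autoImplicit false
set_option linter.unusedSectionVars false

namespace Pool.Agent.H219_PCP

open FreeGroup hiding norm map_mul map_inv map_one
open Pool.Agent.H219_EQ

section maps
variable {α β : Type} [DecidableEq α] [DecidableEq β]

theorem lcpl_map_append {f : α → β} (hf : Function.Injective f) (u u' : List α) (X Y : List β)
    (h1 : lcpl u u' < u.length) (h2 : lcpl u u' < u'.length) :
    lcpl (u.map f ++ X) (u'.map f ++ Y) = lcpl u u' := by
  induction u generalizing u' with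
  | nil => simp at h1
  | cons a u ih =>
    cases u' with
    | nil => simp at h2
    | cons b u' =>
      rw [lcpl_cons] at h1 h2 ⊢
      simp only [List.map_cons, List.cons_append, lcpl_cons]
      by_cases hab : a = b
      · rw [if_pos hab] at h1 h2 ⊢
        rw [if_pos (by rw [hab])]
        rw [ih u' (by simpa using h1) (by simpa using h2)]
      · rw [if_neg hab, if_neg (fun h => hab (hf h))]

theorem lcpl_map_eq {f : α → β} (hf : Function.Injective f) (u u' : List α) (X Y : List β)
    (h : u.map f ++ X = u'.map f ++ Y) : min u.length u'.length ≤ lcpl u u' := by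
  induction u generalizing u' with
  | nil => simp
  | cons a u ih =>
    cases u' with
    | nil => simp
    | cons b u' =>
      simp only [List.map_cons, List.cons_append, List.cons.injEq] at h
      have := ih u' h.2
      rw [lcpl_cons, if_pos (hf h.1), List.length_cons, List.length_cons]
      omega

theorem lcpl_take_le (l m : List α) (k : ℕ) : lcpl l (m.take k) ≤ lcpl l m := by
  induction l generalizing m k with
  | nil => simp
  | cons a l ih =>
    cases m with
    | nil => simp
    | cons b m =>
      cases k with
      | zero => simp
      | succ k =>
        rw [List.take_succ_cons, lcpl_cons, lcpl_cons]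
        split_ifs
        · have := ih m k
          omega
        · omega

end maps

section sides
variable {L T A : Type} [DecidableEq L] [DecidableEq T] [DecidableEq A]

/-- group letters: word letters, left state letters and right state letters -/
abbrev Dl (L T : Type) : Type := L ⊕ (T ⊕ T)

/-- positive word -/
def ps (T : Type) (w : List L) : List (Dl L T × Bool) := w.map (fun x => (Sum.inl x, true))

/-- negative word -/
def ng (T : Type) (w : List L) : List (Dl L T × Bool) := w.map (fun x => (Sum.inl x, false))

/-- inverse of a signed letter -/
def fl {X : Type} (x : X × Bool) : X × Bool := (x.1, !x.2)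

/-- the image words -/
def W (τ : T → Dl L T × Bool) (src tgt : A → T) (u : A → List L) (a : A) : List (Dl L T × Bool) :=
  τ (src a) :: (ps T (u a) ++ [fl (τ (tgt a))])

/-- conditions for one side -/
structure Side (τ : T → Dl L T × Bool) (src tgt : A → T) (u : A → List L) (p : A → ℕ) : Prop where
  inr : ∀ t x, (τ t).1 ≠ Sum.inl x
  inj : Function.Injective τ
  lt : ∀ a, p a < (u a).length
  H1 : ∀ a b, a ≠ b → src a = src b → lcpl (u a) (u b) ≤ p a
  H2 : ∀ a b, a ≠ b → tgt a = tgt b →
    lcpl (u a).reverse (u b).reverse ≤ (u a).length - 1 - p a

variable {τ : T → Dl L T × Bool} {src tgt : A → T} {u : A → List L} {p : A → ℕ}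

theorem inj_ps : Function.Injective (fun x : L => ((Sum.inl x, true) : Dl L T × Bool)) := by
  intro x y h
  simpa using h

theorem inj_ng : Function.Injective (fun x : L => ((Sum.inl x, false) : Dl L T × Bool)) := by
  intro x y h
  simpa using h

theorem W_length (a : A) : (W τ src tgt u a).length = (u a).length + 2 := by
  simp [W, ps]

theorem sU_true (a : A) : sU (W τ src tgt u) (a, true) =
    τ (src a) :: (ps T (u a) ++ [fl (τ (tgt a))]) := by
  simp [sU, W]

theorem sU_false (a : A) : sU (W τ src tgt u) (a, false) =
    τ (tgt a) :: (ng T (u a).reverse ++ [fl (τ (src a))]) := by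
  simp [sU, W, invRev, ps, ng, fl, List.map_reverse]

theorem sP_true (a : A) : sP (W τ src tgt u) (fun a => p a + 1) (a, true) = p a + 1 := by
  simp [sP]

theorem sP_false (a : A) : sP (W τ src tgt u) (fun a => p a + 1) (a, false) =
    (u a).length - p a := by
  simp only [sP, W_length]
  simp

theorem ps_red (w : List L) : IsReduced (ps T w) := by
  unfold FreeGroup.IsReduced ps
  induction w with
  | nil => simp
  | cons x w ih =>
    rw [List.map_cons, List.isChain_cons]
    refine ⟨?_, ih⟩
    intro y hy
    have hm := List.mem_of_mem_head? hy
    simp only [List.mem_map] at hm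
    obtain ⟨z, -, rfl⟩ := hm
    simp

theorem framed_red (x y : Dl L T × Bool) (w : List L) (hx : ∀ l, x.1 ≠ Sum.inl l)
    (hy : ∀ l, y.1 ≠ Sum.inl l) (hw : w ≠ []) : IsReduced (x :: (ps T w ++ [y])) := by
  unfold FreeGroup.IsReduced
  rw [List.isChain_cons, List.isChain_append]
  refine ⟨?_, ps_red w, by simp, ?_⟩
  · intro z hz
    cases w with
    | nil => exact absurd rfl hw
    | cons l w =>
      simp [ps] at hz
      subst hz
      intro h
      exact absurd h (hx l)
  · intro z hz z' hz'
    simp at hz'
    subst hz'
    have hm := List.mem_of_mem_getLast? hz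
    simp only [ps, List.mem_map] at hm
    obtain ⟨l, -, rfl⟩ := hm
    intro h
    exact absurd h.symm (hy l)

theorem side_ok (h : Side τ src tgt u p) : Ok (W τ src tgt u) (fun a => p a + 1) where
  red a := by
    refine framed_red (τ (src a)) (fl (τ (tgt a))) (u a) (fun l => h.inr _ l) (fun l => h.inr _ l) ?_
    intro h'
    have := h.lt a
    rw [h'] at this
    simp at this
  lt a := by
    have := h.lt a
    rw [W_length]
    omega
  ov := by
    rintro ⟨a, s⟩ ⟨b, s'⟩ hne
    have ha := h.lt a
    have hb := h.lt b
    cases s <;> cases s'
    · -- both inverse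
      have hab : a ≠ b := fun h' => hne (by rw [h'])
      rw [sU_false, sU_false, sP_false, lcpl_cons]
      split_ifs with h1
      · have h2 := h.inj h1
        have h3 := h.H2 a b hab h2
        have h4 := h.H2 b a hab.symm h2.symm
        rw [lcpl_comm] at h4
        unfold ng
        rw [lcpl_map_append inj_ng _ _ _ _ (by rw [List.length_reverse]; omega)
          (by rw [List.length_reverse]; omega)]
        omega
      · omega
    · rw [sU_false, sU_true, sP_false, lcpl_cons]
      split_ifs with h1
      · have : lcpl (ng T (u a).reverse ++ [fl (τ (src a))]) (ps T (u b) ++ [fl (τ (tgt b))]) = 0 := by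
          rcases hu : (u a).reverse with _ | ⟨x, l⟩
          · rw [List.reverse_eq_nil_iff] at hu
            rw [hu] at ha
            simp at ha
          · rcases hu' : u b with _ | ⟨y, m⟩
            · rw [hu'] at hb
              simp at hb
            · simp [ng, ps, lcpl_cons]
        rw [this]
        omega
      · omega
    · rw [sU_false, sU_true, sP_true, lcpl_cons]
      split_ifs with h1
      · have : lcpl (ps T (u a) ++ [fl (τ (tgt a))]) (ng T (u b).reverse ++ [fl (τ (src b))]) = 0 := by
          rcases hu : (u b).reverse with _ | ⟨x, l⟩
          · rw [List.reverse_eq_nil_iff] at hu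
            rw [hu] at hb
            simp at hb
          · rcases hu' : u a with _ | ⟨y, m⟩
            · rw [hu'] at ha
              simp at ha
            · simp [ng, ps, lcpl_cons]
        rw [this]
        omega
      · omega
    · have hab : a ≠ b := fun h' => hne (by rw [h'])
      rw [sU_true, sU_true, sP_true, lcpl_cons]
      split_ifs with h1
      · have h2 := h.inj h1
        have h3 := h.H1 a b hab h2
        have h4 := h.H1 b a hab.symm h2.symm
        rw [lcpl_comm] at h4
        unfold ps
        rw [lcpl_map_append inj_ps _ _ _ _ (by omega) (by omega)]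
        omega
      · omega

end sides

end Pool.Agent.H219_PCP
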