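import Pool.Agent.H219_PCP.B

/-!
# The two homomorphisms of a system of rules, and the words where they agree
-/

set_option autoImplicit false
set_option linter.unusedSectionVars false

namespace Pool.Agent.H219_PCP

open FreeGroup hiding norm map_mul map_inv map_one
open Pool.Agent.H219_EQ

/-- a system of rules: the rule `a` reads `u a` from the left of a word in the state `src a`, writes
`v a` on the right and leads to the state `tgt a` -/
structure RS (L T A : Type) where
  top : T
  src : A → T
  tgt : A → T
  u : A → List L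
  v : A → List L
  p : A → ℕ
  p' : A → ℕ

variable {L T A : Type} [DecidableEq L] [DecidableEq T] [DecidableEq A]

/-- state letters for the first homomorphism -/
def tauh (L : Type) (t : T) : Dl L T × Bool := (Sum.inr (Sum.inl t), true)

namespace RS

variable (M : RS L T A)

/-- state letters for the second homomorphism -/
def taug (t : T) : Dl L T × Bool :=
  if t = M.top then (Sum.inr (Sum.inl M.top), true) else (Sum.inr (Sum.inr t), false)

/-- first homomorphism -/
def H : FreeGroup A →* FreeGroup (Dl L T) := hom (W (tauh L) M.src M.tgt M.u)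

/-- second homomorphism -/
def G : FreeGroup A →* FreeGroup (Dl L T) := hom (W M.taug M.src M.tgt M.v)

/-- conditions -/
structure Good : Prop where
  sh : Side (tauh L) M.src M.tgt M.u M.p
  sg : Side M.taug M.src M.tgt M.v M.p'

/-- configurations as group elements -/
def cfg (t : T) (w : List L) : FreeGroup (Dl L T) :=
  FreeGroup.mk (tauh L t :: (ps T w ++ [fl (M.taug t)]))

theorem taug_inj : Function.Injective M.taug := by
  intro s t h
  unfold taug at h
  split_ifs at h with h1 h2 h2
  · rw [h1, h2]
  · simp at h
  · simp at h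
  · simpa using h

theorem taug_inr (t : T) (x : L) : (M.taug t).1 ≠ Sum.inl x := by
  unfold taug
  split_ifs <;> simp

theorem taug_ne {t : T} (h : t ≠ M.top) : M.taug t = (Sum.inr (Sum.inr t), false) := if_neg h

variable {M}

theorem cfg_toWord {t : T} (ht : t ≠ M.top) {w : List L} (hw : w ≠ []) :
    (M.cfg t w).toWord = tauh L t :: (ps T w ++ [(Sum.inr (Sum.inr t), true)]) := by
  unfold cfg
  rw [M.taug_ne ht]
  exact toWord_mk_red (framed_red _ _ _ (by simp [tauh]) (by simp [fl]) hw)

/-- the main lemma -/
theorem first (hM : M.Good) {t : T} (ht : t ≠ M.top) {w : List L} {a b : A}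
    (ha : M.src a = t) (ha' : M.p a < lcpl w (M.u a))
    (hb : M.tgt b = t) (hb' : (M.v b).length - 1 - M.p' b < lcpl w.reverse (M.v b).reverse)
    (x : A × Bool) (l : List (A × Bool)) (hx : IsReduced (x :: l))
    (h : M.cfg t w * M.G (FreeGroup.mk (x :: l)) = M.H (FreeGroup.mk (x :: l))) :
    x = (a, true) ∨ x = (b, false) := by
  have hw0 : 0 < w.length := by
    have := lcpl_le_left w (M.u a)
    omega
  have hw : w ≠ [] := List.length_pos_iff.1 hw0
  obtain ⟨R, hR⟩ := start (side_ok hM.sh) l x hx
  obtain ⟨R', hR'⟩ := start (side_ok hM.sg) l x hx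
  change (M.H (FreeGroup.mk (x :: l))).toWord = _ at hR
  change (M.G (FreeGroup.mk (x :: l))).toWord = _ at hR'
  have hC := cfg_toWord ht hw
  have hCred : IsReduced (tauh L t :: (ps T w ++ [(Sum.inr (Sum.inr t), true)])) := by
    rw [← hC]
    exact isReduced_toWord
  have hCmk : M.cfg t w = FreeGroup.mk (tauh L t :: (ps T w ++ [(Sum.inr (Sum.inr t), true)])) := by
    rw [← hC, mk_toWord]
  have hinv : invRev (tauh L t :: (ps T w ++ [(Sum.inr (Sum.inr t), true)])) =
      (Sum.inr (Sum.inr t), false) :: (ng T w.reverse ++ [fl (tauh L t)]) := by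
    simp [invRev, ps, ng, fl, List.map_reverse]
  have hClen : (tauh L t :: (ps T w ++ [(Sum.inr (Sum.inr t), true)]) : List (Dl L T × Bool)).length =
      w.length + 2 := by simp [ps]
  obtain ⟨c, s⟩ := x
  cases s
  · -- inverse letter
    right
    by_contra hne
    have hcb : c ≠ b := fun h' => hne (by rw [h'])
    have hpc := hM.sh.lt c
    have hpc' := hM.sg.lt c
    rw [sU_false, sP_false] at hR hR'
    -- cancellation is small
    have key : lcpl (invRev (tauh L t :: (ps T w ++ [(Sum.inr (Sum.inr t), true)])))
        (M.G (FreeGroup.mk ((c, false) :: l))).toWord ≤ w.length := by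
      rw [hinv, hR']
      have e1 : (M.taug (M.tgt c) :: (ng T (M.v c).reverse ++ [fl (M.taug (M.src c))])).take
          ((M.v c).length - M.p' c + 1) ++ R' = M.taug (M.tgt c) ::
            ((ng T ((M.v c).reverse.take ((M.v c).length - M.p' c))) ++ R') := by
        rw [List.take_succ_cons, List.take_append_of_le_length (by simp [ng])]
        simp [ng, List.map_take]
      rw [e1, lcpl_cons]
      split_ifs with h1
      · have h2 : M.tgt c = t := by
          apply M.taug_inj
          rw [← h1, M.taug_ne ht]
        have h3 := hM.sg.H2 c b hcb (by rw [h2, hb])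
        have h4 := hM.sg.H2 b c hcb.symm (by rw [h2, hb])
        rw [lcpl_comm] at h4
        have h5 := lcpl_ultra (M.v c).reverse w.reverse (M.v b).reverse
        rw [lcpl_comm (M.v c).reverse w.reverse] at h5
        have h6 := lcpl_le_left w.reverse (M.v b).reverse
        rw [List.length_reverse] at h6
        have h7 := lcpl_take_le w.reverse (M.v c).reverse ((M.v c).length - M.p' c)
        have h8 : lcpl w.reverse (M.v c).reverse ≤ (M.v c).length - 1 - M.p' c := by omega
        have h9 : lcpl w.reverse (M.v c).reverse < w.length := by omega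
        unfold ng
        rw [lcpl_map_append inj_ng _ _ _ _ (by rw [List.length_reverse]; omega)
          (by rw [List.length_take, List.length_reverse]; omega)]
        omega
      · omega
    obtain ⟨R2, hR2⟩ := mul_start _ hCred (M.G (FreeGroup.mk ((c, false) :: l))) 2
      (by rw [hClen]; omega)
    rw [← hCmk, h, hR] at hR2
    have e2 : (tauh L (M.tgt c) :: (ng T (M.u c).reverse ++ [fl (tauh L (M.src c))])).take
        ((M.u c).length - M.p c + 1) ++ R = tauh L (M.tgt c) ::
          ((ng T (M.u c).reverse ++ [fl (tauh L (M.src c))]).take ((M.u c).length - M.p c) ++ R) := by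
      rw [List.take_succ_cons, List.cons_append]
    rw [e2] at hR2
    obtain ⟨y, m, hm⟩ : ∃ y m, (M.u c).reverse = y :: m := by
      rcases hu : (M.u c).reverse with _ | ⟨y, m⟩
      · rw [List.reverse_eq_nil_iff] at hu
        rw [hu] at hpc
        simp at hpc
      · exact ⟨y, m, rfl⟩
    obtain ⟨k, hk⟩ : ∃ k, (M.u c).length - M.p c = k + 1 := ⟨(M.u c).length - M.p c - 1, by omega⟩
    obtain ⟨w1, w2, hw12⟩ : ∃ w1 w2, w = w1 :: w2 := by
      cases w with
      | nil => exact absurd rfl hw
      | cons w1 w2 => exact ⟨w1, w2, rfl⟩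
    rw [hm, hk, hw12] at hR2
    simp [ng, ps] at hR2
  · -- positive letter
    left
    by_contra hne
    have hca : c ≠ a := fun h' => hne (by rw [h'])
    have hpc := hM.sh.lt c
    have hpc' := hM.sg.lt c
    rw [sU_true, sP_true] at hR hR'
    have key : lcpl (invRev (tauh L t :: (ps T w ++ [(Sum.inr (Sum.inr t), true)])))
        (M.G (FreeGroup.mk ((c, true) :: l))).toWord ≤ 1 := by
      rw [hinv, hR', List.take_succ_cons, List.cons_append, lcpl_cons]
      split_ifs
      · have : lcpl (ng T w.reverse ++ [fl (tauh L t)])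
            ((ps T (M.v c) ++ [fl (M.taug (M.tgt c))]).take (M.p' c + 1) ++ R') = 0 := by
          rcases hu : w.reverse with _ | ⟨x, m⟩
          · rw [List.reverse_eq_nil_iff] at hu
            exact absurd hu hw
          · rcases hu' : M.v c with _ | ⟨y, m'⟩
            · rw [hu'] at hpc'
              simp at hpc'
            · simp [ng, ps, lcpl_cons]
        rw [this]
      · omega
    obtain ⟨R2, hR2⟩ := mul_start _ hCred (M.G (FreeGroup.mk ((c, true) :: l))) (w.length + 1)
      (by rw [hClen]; omega)
    rw [← hCmk, h, hR] at hR2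
    have e1 : (tauh L (M.src c) :: (ps T (M.u c) ++ [fl (tauh L (M.tgt c))])).take
        (M.p c + 1 + 1) ++ R = tauh L (M.src c) :: (ps T ((M.u c).take (M.p c + 1)) ++ R) := by
      rw [List.take_succ_cons, List.take_append_of_le_length (by simp [ps]; omega)]
      simp [ps, List.map_take]
    have e2 : (tauh L t :: (ps T w ++ [(Sum.inr (Sum.inr t), true)]) : List (Dl L T × Bool)).take
        (w.length + 1) ++ R2 = tauh L t :: (ps T w ++ R2) := by
      rw [List.take_succ_cons, List.take_append_of_le_length (by simp [ps])]
      simp [ps]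
    rw [e1, e2, List.cons.injEq] at hR2
    have h1 : M.src c = t := by
      have := hR2.1
      simpa [tauh] using this
    have h2 := lcpl_map_eq inj_ps _ _ _ _ hR2.2
    rw [List.length_take, lcpl_comm] at h2
    have h3 := lcpl_take_le w (M.u c) (M.p c + 1)
    have h4 := hM.sh.H1 c a hca (by rw [h1, ha])
    have h5 := hM.sh.H1 a c hca.symm (by rw [h1, ha])
    rw [lcpl_comm] at h5
    have h6 := lcpl_ultra (M.u c) w (M.u a)
    rw [lcpl_comm (M.u c) w] at h6
    have h7 := lcpl_le_left w (M.u a)
    omega

/-- at the identity -/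
theorem first_one (hM : M.Good) (x : A × Bool) (l : List (A × Bool)) (hx : IsReduced (x :: l))
    (h : M.H (FreeGroup.mk (x :: l)) = M.G (FreeGroup.mk (x :: l))) :
    (M.src x.1 = M.top ∧ x.2 = true) ∨ (M.tgt x.1 = M.top ∧ x.2 = false) := by
  obtain ⟨R, hR⟩ := start (side_ok hM.sh) l x hx
  obtain ⟨R', hR'⟩ := start (side_ok hM.sg) l x hx
  change (M.H (FreeGroup.mk (x :: l))).toWord = _ at hR
  change (M.G (FreeGroup.mk (x :: l))).toWord = _ at hR'
  rw [h, hR'] at hR
  obtain ⟨c, s⟩ := x
  have aux : ∀ t, M.taug t = tauh L t → t = M.top := by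
    intro t ht
    by_contra hc
    rw [M.taug_ne hc] at ht
    simp [tauh] at ht
  cases s
  · right
    rw [sU_false, sP_false, sU_false, sP_false, List.take_succ_cons, List.take_succ_cons,
      List.cons_append, List.cons_append, List.cons.injEq] at hR
    exact ⟨aux _ hR.1, rfl⟩
  · left
    rw [sU_true, sP_true, sU_true, sP_true, List.take_succ_cons, List.take_succ_cons,
      List.cons_append, List.cons_append, List.cons.injEq] at hR
    exact ⟨aux _ hR.1, rfl⟩

end RS

end Pool.Agent.H219_PCP
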