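import Pool.Agent.H219_PCP.C

/-!
# Moves between configurations and the equalizer
-/

set_option autoImplicit false
set_option linter.unusedSectionVars false

namespace Pool.Agent.H219_PCP

open FreeGroup hiding norm map_mul map_inv map_one
open Pool.Agent.H219_EQ

variable {L T A : Type} [DecidableEq L] [DecidableEq T] [DecidableEq A]

namespace RS

variable (M : RS L T A)

/-- one move -/
def Mv (a : A) (c c' : T × List L) : Prop :=
  M.src a = c.1 ∧ M.tgt a = c'.1 ∧ ∃ r, c.2 = M.u a ++ r ∧ c'.2 = r ++ M.v a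

/-- one move between ordinary states -/
def Step (c c' : T × List L) : Prop := c.1 ≠ M.top ∧ c'.1 ≠ M.top ∧ ∃ a, M.Mv a c c'

/-- there is a forward path of length `m` -/
def FwdN : ℕ → T × List L → Prop
  | 0, _ => True
  | m + 1, c => ∃ c', M.Step c c' ∧ FwdN m c'

/-- there is a backward path of length `m` -/
def BwdN : ℕ → T × List L → Prop
  | 0, _ => True
  | m + 1, c => ∃ c', M.Step c' c ∧ BwdN m c'

/-- left state -/
def Sl (L : Type) (t : T) : FreeGroup (Dl L T) := FreeGroup.mk [tauh L t]
/-- right state -/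
def Sr (t : T) : FreeGroup (Dl L T) := FreeGroup.mk [M.taug t]
/-- word -/
def E (T : Type) (w : List L) : FreeGroup (Dl L T) := FreeGroup.mk (ps T w)

theorem E_append (w w' : List L) : E T (w ++ w') = E T w * E T w' := by
  simp [E, ps]

theorem mk_fl {X : Type} (x : X × Bool) : FreeGroup.mk [fl x] = (FreeGroup.mk [x])⁻¹ := by
  simp [fl, invRev]

theorem frame_eq (x y : Dl L T × Bool) (w : List L) :
    FreeGroup.mk (x :: (ps T w ++ [fl y])) = FreeGroup.mk [x] * E T w * (FreeGroup.mk [y])⁻¹ := by
  rw [← mk_fl, E, mul_mk, mul_mk]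
  simp

theorem cfg_eq (t : T) (w : List L) : M.cfg t w = Sl L t * E T w * (M.Sr t)⁻¹ :=
  frame_eq _ _ _

theorem H_of (a : A) : M.H (of a) = Sl L (M.src a) * E T (M.u a) * (Sl L (M.tgt a))⁻¹ := by
  unfold H
  rw [hom_of]
  exact frame_eq _ _ _

theorem G_of (a : A) : M.G (of a) = M.Sr (M.src a) * E T (M.v a) * (M.Sr (M.tgt a))⁻¹ := by
  unfold G
  rw [hom_of]
  exact frame_eq _ _ _

theorem Sr_top : M.Sr M.top = Sl L M.top := by
  simp [Sr, Sl, taug, tauh]

variable {M}

theorem cfg_mv {a : A} {c c' : T × List L} (h : M.Mv a c c') :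
    (M.H (of a))⁻¹ * M.cfg c.1 c.2 * M.G (of a) = M.cfg c'.1 c'.2 := by
  obtain ⟨h1, h2, r, h3, h4⟩ := h
  rw [M.H_of, M.G_of, M.cfg_eq, M.cfg_eq, h1, h2, h3, h4, E_append, E_append]
  group

theorem mk_cons {X : Type} (x : X × Bool) (l : List (X × Bool)) :
    FreeGroup.mk (x :: l) = FreeGroup.mk [x] * FreeGroup.mk l := by
  rw [mul_mk]
  rfl

theorem mk_pos {X : Type} (a : X) : FreeGroup.mk [(a, true)] = of a := rfl

theorem mk_neg {X : Type} (a : X) : FreeGroup.mk [(a, false)] = (of a)⁻¹ := by
  simp [of, invRev]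

theorem cfg_ne {t : T} (ht : t ≠ M.top) {w : List L} (hw : w ≠ []) : M.cfg t w ≠ 1 := by
  intro h
  have := cfg_toWord ht hw
  rw [h, toWord_one] at this
  simp at this

theorem no_fwd (hM : M.Good) : ∀ (l : List (A × Bool)) (c : T × List L) (b : A),
    M.FwdN (l.length + 1) c → M.tgt b = c.1 →
    (M.v b).length - 1 - M.p' b < lcpl c.2.reverse (M.v b).reverse → IsReduced l →
    (∀ x l', l = x :: l' → x ≠ (b, false)) →
    M.cfg c.1 c.2 * M.G (FreeGroup.mk l) = M.H (FreeGroup.mk l) → False := by
  intro l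
  induction l with
  | nil =>
    intro c b h1 _ _ _ _ h
    rw [← one_eq_mk, map_one, map_one, mul_one] at h
    obtain ⟨c', ⟨h2, h3, a, h4⟩, -⟩ := h1
    obtain ⟨h5, h6, r, h7, h8⟩ := h4
    refine cfg_ne h2 ?_ h
    intro h9
    rw [h9] at h7
    have := hM.sh.lt a
    have h10 := (List.append_eq_nil_iff.1 h7.symm).1
    rw [h10] at this
    simp at this
  | cons x l ih =>
    intro c b h1 hb hb' hred hx h
    obtain ⟨c', ⟨h2, h3, a, h4⟩, h5⟩ := h1
    have h4' := h4
    obtain ⟨e1, e2, r, e3, e4⟩ := h4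
    have hpa := hM.sh.lt a
    have hpa' := hM.sg.lt a
    have hl : M.p a < lcpl c.2 (M.u a) := by
      rw [e3]
      have := lcpl_append (M.u a) r []
      rw [List.append_nil, lcpl_nil_right, add_zero] at this
      omega
    rcases first hM h2 e1 hl hb hb' x l hred h with h6 | h6
    · subst h6
      refine ih c' a h5 e2 ?_ ?_ ?_ ?_
      · rw [e4, List.reverse_append]
        have := lcpl_append (M.v a).reverse r.reverse []
        rw [List.append_nil, lcpl_nil_right, add_zero, List.length_reverse] at this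
        omega
      · exact IsReduced_right (L := [(a, true)]) hred
      · rintro y l' rfl rfl
        rw [isReduced_cons_cons] at hred
        have := hred.1 rfl
        simp at this
      · rw [mk_cons, mk_pos, map_mul, map_mul] at h
        rw [← cfg_mv h4']
        have : M.cfg c.1 c.2 * M.G (of a) * M.G (FreeGroup.mk l) =
            M.H (of a) * M.H (FreeGroup.mk l) := by rw [← h]; group
        calc (M.H (of a))⁻¹ * M.cfg c.1 c.2 * M.G (of a) * M.G (FreeGroup.mk l)
            = (M.H (of a))⁻¹ * (M.cfg c.1 c.2 * M.G (of a) * M.G (FreeGroup.mk l)) := by group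
          _ = M.H (FreeGroup.mk l) := by rw [this]; group
    · exact hx x l rfl h6

theorem no_bwd (hM : M.Good) : ∀ (l : List (A × Bool)) (c : T × List L) (a : A),
    M.BwdN (l.length + 1) c → M.src a = c.1 →
    M.p a < lcpl c.2 (M.u a) → IsReduced l →
    (∀ x l', l = x :: l' → x ≠ (a, true)) →
    M.cfg c.1 c.2 * M.G (FreeGroup.mk l) = M.H (FreeGroup.mk l) → False := by
  intro l
  induction l with
  | nil =>
    intro c b h1 _ _ _ _ h
    rw [← one_eq_mk, map_one, map_one, mul_one] at h
    obtain ⟨c', ⟨h2, h3, a, h4⟩, -⟩ := h1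
    obtain ⟨h5, h6, r, h7, h8⟩ := h4
    refine cfg_ne h3 ?_ h
    intro h9
    rw [h9] at h8
    have := hM.sg.lt a
    have h10 := (List.append_eq_nil_iff.1 h8.symm).2
    rw [h10] at this
    simp at this
  | cons x l ih =>
    intro c a h1 ha ha' hred hx h
    obtain ⟨c', ⟨h2, h3, b, h4⟩, h5⟩ := h1
    have h4' := h4
    obtain ⟨e1, e2, r, e3, e4⟩ := h4
    have hpb := hM.sh.lt b
    have hpb' := hM.sg.lt b
    have hl : (M.v b).length - 1 - M.p' b < lcpl c.2.reverse (M.v b).reverse := by
      rw [e4, List.reverse_append]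
      have := lcpl_append (M.v b).reverse r.reverse []
      rw [List.append_nil, lcpl_nil_right, add_zero, List.length_reverse] at this
      omega
    rcases first hM h3 ha ha' e2 hl x l hred h with h6 | h6
    · exact hx x l rfl h6
    · subst h6
      refine ih c' b h5 e1 ?_ ?_ ?_ ?_
      · rw [e3]
        have := lcpl_append (M.u b) r []
        rw [List.append_nil, lcpl_nil_right, add_zero] at this
        omega
      · exact IsReduced_right (L := [(b, false)]) hred
      · rintro y l' rfl rfl
        rw [isReduced_cons_cons] at hred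
        have := hred.1 rfl
        simp at this
      · rw [mk_cons, mk_neg, map_mul, map_mul, map_inv, map_inv, ← cfg_mv h4'] at h
        have : (M.H (of b))⁻¹ * (M.cfg c'.1 c'.2 * M.G (FreeGroup.mk l)) =
            (M.H (of b))⁻¹ * M.H (FreeGroup.mk l) := by rw [← h]; group
        exact mul_left_cancel this

/-- the data which close the path at the identity -/
structure Ends (M : RS L T A) (s e : A) (σ0 σf : T) (w0 wf : List L) (x0 x1 : L) : Prop where
  ss : M.src s = M.top
  ts : M.tgt s = σ0
  se : M.src e = σf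
  te : M.tgt e = M.top
  us : M.u s = [x0]
  vs : M.v s = x0 :: w0
  ue : M.u e = wf ++ [x1]
  ve : M.v e = [x1]
  ps : M.p' s = 1
  pe : M.p e = wf.length - 1
  n0 : w0 ≠ []
  nf : wf ≠ []
  t0 : σ0 ≠ M.top
  tf : σf ≠ M.top
  uniq_s : ∀ a, M.src a = M.top → a = s
  uniq_e : ∀ a, M.tgt a = M.top → a = e

variable {s e : A} {σ0 σf : T} {w0 wf : List L} {x0 x1 : L}

theorem start_cfg (hE : Ends M s e σ0 σf w0 wf x0 x1) :
    (M.H (of s))⁻¹ * M.G (of s) = M.cfg σ0 w0 := by
  rw [M.H_of, M.G_of, M.cfg_eq, hE.ss, hE.ts, hE.us, hE.vs, M.Sr_top]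
  have : x0 :: w0 = [x0] ++ w0 := rfl
  rw [this, E_append]
  group

theorem end_cfg (hE : Ends M s e σ0 σf w0 wf x0 x1) :
    M.H (of e) * (M.G (of e))⁻¹ = M.cfg σf wf := by
  rw [M.H_of, M.G_of, M.cfg_eq, hE.se, hE.te, hE.ue, hE.ve, M.Sr_top, E_append]
  group

/-- infinite computations: the equalizer is trivial -/
theorem trivial_of_infinite (hM : M.Good) (hE : Ends M s e σ0 σf w0 wf x0 x1)
    (hF : ∀ m, M.FwdN m (σ0, w0)) (hB : ∀ m, M.BwdN m (σf, wf)) (z : FreeGroup A)
    (hz : M.H z = M.G z) : z = 1 := by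
  by_contra hne
  have hzw : z = FreeGroup.mk z.toWord := mk_toWord.symm
  have hred : IsReduced z.toWord := isReduced_toWord
  rcases hw : z.toWord with _ | ⟨x, l⟩
  · rw [toWord_eq_nil_iff] at hw
    exact hne hw
  rw [hw] at hzw hred
  rw [hzw] at hz
  rcases first_one hM x l hred hz with ⟨h1, h2⟩ | ⟨h1, h2⟩
  · obtain ⟨c, b⟩ := x
    have h3 := hE.uniq_s c h1
    simp only at h2
    subst h2 h3
    rw [mk_cons, mk_pos, map_mul, map_mul] at hz
    refine no_fwd hM l (σ0, w0) c (hF _) hE.ts ?_ (IsReduced_right (L := [(c, true)]) hred) ?_ ?_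
    · rw [hE.vs, hE.ps]
      have := lcpl_append w0.reverse [] [x0]
      rw [List.append_nil, lcpl_nil_left, add_zero, List.length_reverse] at this
      have h0 := List.length_pos_iff.2 hE.n0
      rw [List.reverse_cons, this, List.length_cons]
      omega
    · rintro y l' rfl rfl
      rw [isReduced_cons_cons] at hred
      have := hred.1 rfl
      simp at this
    · rw [← start_cfg hE]
      calc (M.H (of c))⁻¹ * M.G (of c) * M.G (FreeGroup.mk l)
          = (M.H (of c))⁻¹ * (M.G (of c) * M.G (FreeGroup.mk l)) := by group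
        _ = M.H (FreeGroup.mk l) := by rw [← hz]; group
  · obtain ⟨c, b⟩ := x
    have h3 := hE.uniq_e c h1
    simp only at h2
    subst h2 h3
    rw [mk_cons, mk_neg, map_mul, map_mul, map_inv, map_inv] at hz
    refine no_bwd hM l (σf, wf) c (hB _) hE.se ?_ (IsReduced_right (L := [(c, false)]) hred) ?_ ?_
    · rw [hE.ue, hE.pe]
      have := lcpl_append wf [] [x1]
      rw [List.append_nil, lcpl_nil_left, add_zero] at this
      have h0 := List.length_pos_iff.2 hE.nf
      rw [this]
      omega
    · rintro y l' rfl rfl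
      rw [isReduced_cons_cons] at hred
      have := hred.1 rfl
      simp at this
    · rw [← end_cfg hE]
      calc M.H (of c) * (M.G (of c))⁻¹ * M.G (FreeGroup.mk l)
          = M.H (of c) * ((M.G (of c))⁻¹ * M.G (FreeGroup.mk l)) := by group
        _ = M.H (FreeGroup.mk l) := by rw [← hz]; group

theorem path_word {c c' : T × List L} (h : Relation.ReflTransGen M.Step c c') :
    ∃ l : List A, (M.H (l.map of).prod)⁻¹ * M.cfg c.1 c.2 * M.G (l.map of).prod =
      M.cfg c'.1 c'.2 := by
  induction h with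
  | refl => exact ⟨[], by simp⟩
  | tail _ h2 ih =>
    obtain ⟨l, hl⟩ := ih
    obtain ⟨-, -, a, ha⟩ := h2
    refine ⟨l ++ [a], ?_⟩
    rw [← cfg_mv ha, ← hl]
    simp only [List.map_append, List.prod_append, List.map_cons, List.map_nil, List.prod_cons,
      List.prod_nil, mul_one, map_mul, mul_inv_rev]
    group

/-- a finite computation gives an element of the equalizer -/
theorem exists_of_path (hE : Ends M s e σ0 σf w0 wf x0 x1)
    (h : Relation.ReflTransGen M.Step (σ0, w0) (σf, wf)) :
    ∃ z : FreeGroup A, z ≠ 1 ∧ M.H z = M.G z := by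
  obtain ⟨l, hl⟩ := path_word h
  refine ⟨of s * (l.map of).prod * of e, ?_, ?_⟩
  · intro h1
    have h2 : FreeGroup.lift (fun _ : A => Multiplicative.ofAdd (1 : ℤ))
        (of s * (l.map of).prod * of e) = 1 := by
      rw [h1]
      exact MonoidHom.map_one _
    rw [MonoidHom.map_mul, MonoidHom.map_mul, map_list_prod, List.map_map] at h2
    have h3 : (l.map ((FreeGroup.lift (fun _ : A => Multiplicative.ofAdd (1 : ℤ))) ∘ of)).prod =
        Multiplicative.ofAdd (l.length : ℤ) := by
      clear h1 h2 hl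
      induction l with
      | nil => simp
      | cons a l ih =>
        rw [List.map_cons, List.prod_cons, ih]
        simp only [Function.comp, FreeGroup.lift_apply_of, List.length_cons]
        rw [← ofAdd_add]
        congr 1
        push_cast
        ring
    rw [h3, FreeGroup.lift_apply_of, FreeGroup.lift_apply_of, ← ofAdd_add, ← ofAdd_add] at h2
    have h4 : (1 : ℤ) + l.length + 1 = 0 := by
      have := congrArg Multiplicative.toAdd h2
      simpa using this
    omega
  · rw [map_mul, map_mul, map_mul, map_mul]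
    have h1 := start_cfg hE
    have h2 := end_cfg hE
    simp only at hl
    rw [← h1, ← h2] at hl
    have h3 : M.G (of s) * M.G (l.map of).prod = M.H (of s) * M.H (l.map of).prod *
        (M.H (of e) * (M.G (of e))⁻¹) := by
      rw [← hl]
      group
    rw [h3]
    group

end RS

end Pool.Agent.H219_PCP
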