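import Mathlib

/-!
# Homomorphisms given by tuples of words
-/

set_option autoImplicit false

namespace Pool.Agent.H219_PCP

/-- the homomorphism of free groups given by a tuple of words -/
def toHom {n m : ℕ} (f : Fin n → List (Fin m × Bool)) :
    FreeGroup (Fin n) →* FreeGroup (Fin m) :=
  FreeGroup.lift (fun i => FreeGroup.mk (f i))

end Pool.Agent.H219_PCP
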