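import Pool.Agent.H219_PCP.D

/-!
# The system of rules which simulates a counter machine forwards and backwards
-/

set_option autoImplicit false
set_option linter.unusedSectionVars false

namespace Pool.Agent.H219_PCP

open Pool.Agent.H219_EQ

/-- a machine with two counters whose steps are affine on residue classes -/
structure CM (Q : Type) where
  B : ℕ
  hB : 0 < B
  nxt : Q × Fin B × Fin B → Option Q
  ax : Q × Fin B × Fin B → ℕ
  bx : Q × Fin B × Fin B → ℕ
  ay : Q × Fin B × Fin B → ℕ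
  cy : Q × Fin B × Fin B → ℕ
  hx : ∀ κ, bx κ < ax κ
  hy : ∀ κ, cy κ < ay κ
  K : ℕ
  code : Q × Fin B × Fin B → ℕ
  code_lt : ∀ κ, code κ < K
  code_inj : Function.Injective code
  q0 : Q

/-- the letters of words -/
inductive Lt : Type
  | c | D | dol | pnd
  deriving DecidableEq

instance : Fintype Lt := ⟨{.c, .D, .dol, .pnd}, by intro x; cases x <;> decide⟩

/-- states -/
inductive St (Q : Type) (B : ℕ) : Type
  | B1 (q : Q)
  | B2 (q : Q) (i : Fin B)
  | B3 (κ : Q × Fin B × Fin B)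
  | C1 (κ : Q × Fin B × Fin B)
  | C2 (κ : Q × Fin B × Fin B)
  | C3 (q : Q)
  | P1 (q : Q) (j : Fin B)
  | P2 (q : Q)
  | P3 (q : Q)
  | R1 (κ : Q × Fin B × Fin B)
  | R2 (κ : Q × Fin B × Fin B)
  | R3 (κ : Q × Fin B × Fin B)
  deriving DecidableEq, Fintype

/-- rules at the ends of blocks -/
inductive Ex (Q : Type) (B : ℕ) : Type
  | B1 (q : Q) (i : Fin B)
  | B2 (κ : Q × Fin B × Fin B)
  | B3 (κ : Q × Fin B × Fin B)
  | C1 (κ : Q × Fin B × Fin B)
  | C2 (κ : Q × Fin B × Fin B)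
  | C3 (q : Q)
  | P1 (q : Q) (j : Fin B)
  | P2 (q : Q)
  | P3 (κ : Q × Fin B × Fin B)
  | R1 (κ : Q × Fin B × Fin B)
  | R2 (κ : Q × Fin B × Fin B)
  | R3 (κ : Q × Fin B × Fin B)
  deriving DecidableEq, Fintype

/-- rules -/
inductive Ru (Q : Type) (B : ℕ) : Type
  | body (σ : St Q B)
  | ex (ε : Ex Q B)
  | s
  | e
  deriving DecidableEq, Fintype

namespace CM

variable {Q : Type} [DecidableEq Q] (M : CM Q)

/-- the next state, with a default -/
def qn (κ : Q × Fin M.B × Fin M.B) : Q := (M.nxt κ).getD M.q0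

/-- number of letters read by a rule inside a block -/
def n : St Q M.B → ℕ
  | .B1 _ => M.B
  | .B2 _ _ => M.B
  | .B3 _ => 1
  | .C1 _ => M.B
  | .C2 _ => M.B
  | .C3 _ => M.K + 1
  | .P1 _ _ => M.B
  | .P2 _ => M.B
  | .P3 _ => M.K + 1
  | .R1 κ => M.ax κ
  | .R2 κ => M.ay κ
  | .R3 κ => if M.nxt κ = none then 1 else M.K + 1

/-- number of letters written by a rule inside a block -/
def k : St Q M.B → ℕ
  | .B1 _ => M.B
  | .B2 _ _ => M.B
  | .B3 _ => M.K + 1
  | .C1 κ => M.ax κ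
  | .C2 κ => M.ay κ
  | .C3 _ => M.K + 1
  | .P1 _ _ => M.B
  | .P2 _ => M.B
  | .P3 _ => M.K + 1
  | .R1 _ => M.B
  | .R2 _ => M.B
  | .R3 _ => 1

/-- surviving letter of a read word -/
def pm : St Q M.B → ℕ
  | .B1 _ => M.B - 1
  | .B2 _ _ => M.B - 1
  | .B3 _ => 0
  | .C1 _ => M.B - 1
  | .C2 _ => M.B - 1
  | .C3 _ => 0
  | .P1 _ _ => 0
  | .P2 _ => 0
  | .P3 _ => M.K
  | .R1 κ => M.ax κ - 1
  | .R2 κ => M.ay κ - 1
  | .R3 κ => if M.nxt κ = none then 0 else M.K

/-- surviving letter of a written word -/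
def pm' : St Q M.B → ℕ
  | .B1 _ => M.B - 1
  | .B2 _ _ => M.B - 1
  | .B3 _ => M.K
  | .C1 κ => M.ax κ - 1
  | .C2 κ => M.ay κ - 1
  | .C3 _ => 0
  | .P1 _ _ => 0
  | .P2 _ => 0
  | .P3 _ => M.K
  | .R1 _ => M.B - 1
  | .R2 _ => M.B - 1
  | .R3 _ => 0

def esrc : Ex Q M.B → St Q M.B
  | .B1 q _ => .B1 q
  | .B2 κ => .B2 κ.1 κ.2.1
  | .B3 κ => .B3 κ
  | .C1 κ => .C1 κ
  | .C2 κ => .C2 κ
  | .C3 q => .C3 q
  | .P1 q j => .P1 q j
  | .P2 q => .P2 q
  | .P3 κ => .P3 (M.qn κ)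
  | .R1 κ => .R1 κ
  | .R2 κ => .R2 κ
  | .R3 κ => .R3 κ

def etgt : Ex Q M.B → St Q M.B
  | .B1 q i => .B2 q i
  | .B2 κ => if M.nxt κ = none then .R3 κ else .B3 κ
  | .B3 κ => .C1 κ
  | .C1 κ => .C2 κ
  | .C2 κ => .C3 (M.qn κ)
  | .C3 q => .B1 q
  | .P1 q _ => .P2 q
  | .P2 q => .P3 q
  | .P3 κ => .R1 κ
  | .R1 κ => .R2 κ
  | .R2 κ => if M.nxt κ = none then .B3 κ else .R3 κ
  | .R3 κ => .P1 κ.1 κ.2.2

/-- letters read before the delimiter -/
def al : Ex Q M.B → ℕ
  | .B1 _ i => i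
  | .B2 κ => κ.2.2
  | .B3 _ => 0
  | .C1 κ => κ.2.1
  | .C2 κ => κ.2.2
  | .C3 _ => 0
  | .P1 _ _ => 0
  | .P2 _ => 0
  | .P3 κ => M.code κ
  | .R1 κ => M.bx κ
  | .R2 κ => M.cy κ
  | .R3 κ => if M.nxt κ = none then 0 else M.code κ

/-- letters written before the delimiter -/
def al' : Ex Q M.B → ℕ
  | .B1 _ i => i
  | .B2 κ => κ.2.2
  | .B3 κ => M.code κ
  | .C1 κ => M.bx κ
  | .C2 κ => M.cy κ
  | .C3 _ => 0
  | .P1 _ _ => 0
  | .P2 _ => 0
  | .P3 κ => M.code κ
  | .R1 κ => κ.2.1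
  | .R2 κ => κ.2.2
  | .R3 _ => 0

/-- letters read and written after the delimiter -/
def be : Ex Q M.B → ℕ
  | .B1 _ _ => 0
  | .B2 _ => 0
  | .B3 _ => 0
  | .C1 _ => 0
  | .C2 κ => M.code κ
  | .C3 _ => 0
  | .P1 _ j => j
  | .P2 _ => 0
  | .P3 _ => 0
  | .R1 _ => 0
  | .R2 _ => 0
  | .R3 κ => κ.2.1

theorem pm_lt (σ : St Q M.B) : M.pm σ < M.n σ := by
  have hB := M.hB
  cases σ with
  | R1 κ => have := M.hx κ; simp only [pm, n]; omega
  | R2 κ => have := M.hy κ; simp only [pm, n]; omega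
  | R3 κ => simp only [pm, n]; split_ifs <;> omega
  | _ => simp only [pm, n]; omega

theorem pm'_lt (σ : St Q M.B) : M.pm' σ < M.k σ := by
  have hB := M.hB
  cases σ with
  | C1 κ => have := M.hx κ; simp only [pm', k]; omega
  | C2 κ => have := M.hy κ; simp only [pm', k]; omega
  | _ => simp only [pm', k]; omega

theorem al_le (ε : Ex Q M.B) : M.al ε ≤ M.pm (M.esrc ε) := by
  have hB := M.hB
  cases ε with
  | B1 q i => have := i.2; simp only [al, pm, esrc]; omega
  | B2 κ => have := κ.2.2.2; simp only [al, pm, esrc]; omega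
  | C1 κ => have := κ.2.1.2; simp only [al, pm, esrc]; omega
  | C2 κ => have := κ.2.2.2; simp only [al, pm, esrc]; omega
  | P3 κ => have := M.code_lt κ; simp only [al, pm, esrc]; omega
  | R1 κ => have := M.hx κ; simp only [al, pm, esrc]; omega
  | R2 κ => have := M.hy κ; simp only [al, pm, esrc]; omega
  | R3 κ => have := M.code_lt κ; simp only [al, pm, esrc]; split_ifs <;> omega
  | _ => simp only [al, pm, esrc]; omega

theorem al'_le (ε : Ex Q M.B) : M.al' ε ≤ M.pm' (M.esrc ε) := by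
  have hB := M.hB
  cases ε with
  | B1 q i => have := i.2; simp only [al', pm', esrc]; omega
  | B2 κ => have := κ.2.2.2; simp only [al', pm', esrc]; omega
  | B3 κ => have := M.code_lt κ; simp only [al', pm', esrc]; omega
  | C1 κ => have := M.hx κ; simp only [al', pm', esrc]; omega
  | C2 κ => have := M.hy κ; simp only [al', pm', esrc]; omega
  | P3 κ => have := M.code_lt κ; simp only [al', pm', esrc]; omega
  | R1 κ => have := κ.2.1.2; simp only [al', pm', esrc]; omega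
  | R2 κ => have := κ.2.2.2; simp only [al', pm', esrc]; omega
  | _ => simp only [al', pm', esrc]; omega

theorem be_le (ε : Ex Q M.B) : M.be ε + M.pm (M.etgt ε) + 1 ≤ M.n (M.etgt ε) := by
  have hB := M.hB
  cases ε with
  | B2 κ => simp only [be, etgt]; split_ifs with h <;> simp only [pm, n, h, if_true] <;> omega
  | C2 κ => have := M.code_lt κ; simp only [be, pm, n, etgt]; omega
  | P1 q j => have := j.2; simp only [be, pm, n, etgt]; omega
  | P3 κ => have := M.hx κ; simp only [be, pm, n, etgt]; omega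
  | R1 κ => have := M.hy κ; simp only [be, pm, n, etgt]; omega
  | R2 κ => simp only [be, etgt]; split_ifs with h <;> simp only [pm, n, h, if_false] <;> omega
  | R3 κ => have := κ.2.1.2; simp only [be, pm, n, etgt]; omega
  | _ => simp only [be, pm, n, etgt]; omega

theorem be'_le (ε : Ex Q M.B) : M.be ε + M.pm' (M.etgt ε) + 1 ≤ M.k (M.etgt ε) := by
  have hB := M.hB
  cases ε with
  | B2 κ => simp only [be, etgt]; split_ifs with h <;> simp only [pm', k] <;> omega
  | B3 κ => have := M.hx κ; simp only [be, pm', k, etgt]; omega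
  | C1 κ => have := M.hy κ; simp only [be, pm', k, etgt]; omega
  | C2 κ => have := M.code_lt κ; simp only [be, pm', k, etgt]; omega
  | P1 q j => have := j.2; simp only [be, pm', k, etgt]; omega
  | R2 κ => simp only [be, etgt]; split_ifs with h <;> simp only [pm', k] <;> omega
  | R3 κ => have := κ.2.1.2; simp only [be, pm', k, etgt]; omega
  | _ => simp only [be, pm', k, etgt]; omega

theorem al_inj (ε ε' : Ex Q M.B) (h : M.esrc ε = M.esrc ε') (h' : M.al ε = M.al ε') : ε = ε' := by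
  cases ε <;> cases ε' <;> simp only [esrc, al, St.B1.injEq, St.B2.injEq, St.B3.injEq, St.C1.injEq,
    St.C2.injEq, St.C3.injEq, St.P1.injEq, St.P2.injEq, St.P3.injEq, St.R1.injEq, St.R2.injEq,
    St.R3.injEq, reduceCtorEq] at h h'
  case B1 q i q' i' => rw [h, Fin.ext h']
  case B2 κ κ' =>
    obtain ⟨q, i, j⟩ := κ
    obtain ⟨q', i', j'⟩ := κ'
    simp only at h h'
    rw [h.1, h.2, Fin.ext h']
  case P3 κ κ' => rw [M.code_inj h']
  all_goals first | rw [h] | (obtain ⟨h1, h2⟩ := h; rw [h1, h2])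

theorem al'_inj (ε ε' : Ex Q M.B) (h : M.esrc ε = M.esrc ε') (h' : M.al' ε = M.al' ε') : ε = ε' := by
  cases ε <;> cases ε' <;> simp only [esrc, al', St.B1.injEq, St.B2.injEq, St.B3.injEq, St.C1.injEq,
    St.C2.injEq, St.C3.injEq, St.P1.injEq, St.P2.injEq, St.P3.injEq, St.R1.injEq, St.R2.injEq,
    St.R3.injEq, reduceCtorEq] at h h'
  case B1 q i q' i' => rw [h, Fin.ext h']
  case B2 κ κ' =>
    obtain ⟨q, i, j⟩ := κ
    obtain ⟨q', i', j'⟩ := κ'
    simp only at h h'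
    rw [h.1, h.2, Fin.ext h']
  case P3 κ κ' => rw [M.code_inj h']
  all_goals first | rw [h] | (obtain ⟨h1, h2⟩ := h; rw [h1, h2])

theorem be_inj (ε ε' : Ex Q M.B) (h : M.etgt ε = M.etgt ε') (h' : M.be ε = M.be ε') : ε = ε' := by
  cases ε <;> cases ε' <;> simp only [etgt, be] at h h' <;> (try split_ifs at h) <;>
    simp only [St.B1.injEq, St.B2.injEq, St.B3.injEq, St.C1.injEq,
    St.C2.injEq, St.C3.injEq, St.P1.injEq, St.P2.injEq, St.P3.injEq, St.R1.injEq, St.R2.injEq,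
    St.R3.injEq, reduceCtorEq] at h
  case C2 κ κ' => rw [M.code_inj h']
  case P1 q j q' j' => rw [h, Fin.ext h']
  case R3 κ κ' =>
    obtain ⟨q, i, j⟩ := κ
    obtain ⟨q', i', j'⟩ := κ'
    simp only at h h'
    rw [h.1, h.2, Fin.ext h']
  all_goals first | (subst h; contradiction) | rw [h] | (obtain ⟨h1, h2⟩ := h; rw [h1, h2])

end CM

end Pool.Agent.H219_PCP
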