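import Pool.Agent.H219_PCP.E

/-!
# The rules satisfy the conditions
-/

set_option autoImplicit false
set_option linter.unusedSectionVars false
set_option linter.unusedSimpArgs false

namespace Pool.Agent.H219_PCP

open Pool.Agent.H219_EQ

/-- a block of letters -/
def cs (m : ℕ) : List Lt := List.replicate m Lt.c

theorem cs_zero : cs 0 = [] := rfl
theorem cs_succ (m : ℕ) : cs (m + 1) = Lt.c :: cs m := rfl
theorem cs_add (m m' : ℕ) : cs (m + m') = cs m ++ cs m' := List.replicate_add _ _ _
theorem cs_length (m : ℕ) : (cs m).length = m := List.length_replicate
theorem cs_reverse (m : ℕ) : (cs m).reverse = cs m := List.reverse_replicate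

/-- a word with three delimiters -/
def w4 (x y z t : ℕ) : List Lt := cs x ++ Lt.D :: (cs y ++ Lt.D :: (cs z ++ Lt.D :: cs t))

theorem lcpl_cs (m m' : ℕ) (X X' : List Lt) (hX : X.head? ≠ some Lt.c) (hX' : X'.head? ≠ some Lt.c)
    (h : m ≠ m' ∨ X.head? ≠ X'.head?) : lcpl (cs m ++ X) (cs m' ++ X') ≤ min m m' := by
  induction m generalizing m' with
  | zero =>
    cases m' with
    | zero =>
      rw [cs_zero, List.nil_append, List.nil_append]
      rcases h with h | h
      · exact absurd rfl h
      · cases X with
        | nil => simp
        | cons a X =>
          cases X' with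
          | nil => simp
          | cons b X' =>
            rw [lcpl_cons, if_neg (fun h' => h (by simp [h']))]
            simp
    | succ m' =>
      rw [cs_zero, List.nil_append, cs_succ, List.cons_append]
      cases X with
      | nil => simp
      | cons a X =>
        rw [lcpl_cons, if_neg (fun h' => hX (by simp [h']))]
        simp
  | succ m ih =>
    cases m' with
    | zero =>
      rw [cs_zero, List.nil_append, cs_succ, List.cons_append]
      cases X' with
      | nil => simp
      | cons a X =>
        rw [lcpl_cons, if_neg (fun h' => hX' (by simp [← h']))]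
        simp
    | succ m' =>
      rw [cs_succ, cs_succ, List.cons_append, List.cons_append, lcpl_cons, if_pos rfl]
      have := ih m' (by rcases h with h | h; exact Or.inl (fun h' => h (by rw [h'])); exact Or.inr h)
      omega

/-- the shape of a rule seen from one end: number of letters `c` and the rest -/
structure Shape {A : Type} (u : A → List Lt) (f : A → ℕ) (X : A → List Lt) : Prop where
  eq : ∀ a, u a = cs (f a) ++ X a
  nc : ∀ a, (X a).head? ≠ some Lt.c

theorem Shape.lcpl_le {A : Type} {u : A → List Lt} {f : A → ℕ} {X : A → List Lt} (h : Shape u f X)
    (a b : A) (hab : f a ≠ f b ∨ (X a).head? ≠ (X b).head?) : lcpl (u a) (u b) ≤ min (f a) (f b) := by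
  rw [h.eq a, h.eq b]
  exact lcpl_cs _ _ _ _ (h.nc a) (h.nc b) hab

namespace CM

variable {Q : Type} [DecidableEq Q] (M : CM Q)

/-- first word -/
def w0 (N : ℕ) : List Lt := w4 0 N 0 M.K

/-- last word -/
def wf (N : ℕ) : List Lt := w4 M.K N 0 0

/-- words read -/
def uu (N : ℕ) : Ru Q M.B → List Lt
  | .body σ => cs (M.n σ)
  | .ex ε => cs (M.al ε) ++ Lt.D :: cs (M.be ε)
  | .s => [Lt.dol]
  | .e => M.wf N ++ [Lt.pnd]

/-- words written -/
def vv (N : ℕ) : Ru Q M.B → List Lt
  | .body σ => cs (M.k σ)
  | .ex ε => cs (M.al' ε) ++ Lt.D :: cs (M.be ε)
  | .s => Lt.dol :: M.w0 N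
  | .e => [Lt.pnd]

/-- surviving letters -/
def pp (N : ℕ) : Ru Q M.B → ℕ
  | .body σ => M.pm σ
  | .ex ε => M.al ε
  | .s => 0
  | .e => (M.wf N).length - 1

def pp' : Ru Q M.B → ℕ
  | .body σ => M.pm' σ
  | .ex ε => M.al' ε
  | .s => 1
  | .e => 0

def rsrc : Ru Q M.B → Option (St Q M.B)
  | .body σ => some σ
  | .ex ε => some (M.esrc ε)
  | .s => none
  | .e => some (.P3 M.q0)

def rtgt : Ru Q M.B → Option (St Q M.B)
  | .body σ => some σ
  | .ex ε => some (M.etgt ε)
  | .s => some (.C3 M.q0)
  | .e => none

/-- the system of rules -/
def rs (N : ℕ) : RS Lt (Option (St Q M.B)) (Ru Q M.B) where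
  top := none
  src := M.rsrc
  tgt := M.rtgt
  u := M.uu N
  v := M.vv N
  p := M.pp N
  p' := M.pp'

theorem wf_length (N : ℕ) : (M.wf N).length = M.K + N + 3 := by
  simp only [wf, w4, List.length_append, List.length_cons, cs_length]
  omega

theorem w0_length (N : ℕ) : (M.w0 N).length = M.K + N + 3 := by
  simp only [w0, w4, List.length_append, List.length_cons, cs_length]
  omega

def fu : Ru Q M.B → ℕ
  | .body σ => M.n σ
  | .ex ε => M.al ε
  | .s => 0
  | .e => M.K

def Xu (N : ℕ) : Ru Q M.B → List Lt
  | .body _ => []
  | .ex ε => Lt.D :: cs (M.be ε)
  | .s => [Lt.dol]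
  | .e => Lt.D :: (cs N ++ Lt.D :: (cs 0 ++ Lt.D :: cs 0)) ++ [Lt.pnd]

def fu' : Ru Q M.B → ℕ
  | .body σ => M.n σ
  | .ex ε => M.be ε
  | .s => 0
  | .e => 0

def Xu' (N : ℕ) : Ru Q M.B → List Lt
  | .body _ => []
  | .ex ε => Lt.D :: cs (M.al ε)
  | .s => [Lt.dol]
  | .e => Lt.pnd :: (M.wf N).reverse

def fv : Ru Q M.B → ℕ
  | .body σ => M.k σ
  | .ex ε => M.al' ε
  | .s => 0
  | .e => 0

def Xv (N : ℕ) : Ru Q M.B → List Lt
  | .body _ => []
  | .ex ε => Lt.D :: cs (M.be ε)
  | .s => Lt.dol :: M.w0 N
  | .e => [Lt.pnd]

def fv' : Ru Q M.B → ℕ
  | .body σ => M.k σ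
  | .ex ε => M.be ε
  | .s => M.K
  | .e => 0

def Xv' (N : ℕ) : Ru Q M.B → List Lt
  | .body _ => []
  | .ex ε => Lt.D :: cs (M.al' ε)
  | .s => Lt.D :: (cs 0 ++ Lt.D :: (cs N ++ Lt.D :: cs 0)) ++ [Lt.dol]
  | .e => [Lt.pnd]

theorem shape_u (N : ℕ) : Shape (M.uu N) M.fu (M.Xu N) where
  eq a := by cases a <;> simp [uu, fu, Xu, wf, w4, cs_zero]
  nc a := by cases a <;> simp [Xu]

theorem shape_u' (N : ℕ) : Shape (fun a => (M.uu N a).reverse) M.fu' (M.Xu' N) where
  eq a := by cases a <;> simp [uu, fu', Xu', cs_zero, cs_reverse]
  nc a := by cases a <;> simp [Xu']

theorem shape_v (N : ℕ) : Shape (M.vv N) M.fv (M.Xv N) where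
  eq a := by cases a <;> simp [vv, fv, Xv, cs_zero]
  nc a := by cases a <;> simp [Xv]

theorem shape_v' (N : ℕ) : Shape (fun a => (M.vv N a).reverse) M.fv' (M.Xv' N) where
  eq a := by cases a <;> simp [vv, fv', Xv', w0, w4, cs_zero, cs_reverse]
  nc a := by cases a <;> simp [Xv']

theorem side_h (N : ℕ) : Side (tauh Lt) M.rsrc M.rtgt (M.uu N) (M.pp N) where
  inr t x := by simp [tauh]
  inj := by
    intro s t h
    simpa [tauh] using h
  lt a := by
    cases a with
    | body σ => simpa [pp, uu, cs_length] using M.pm_lt σ
    | ex ε => simp [pp, uu, cs_length]
    | s => simp [pp, uu]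
    | e => simp only [fu, fu', pp, uu, List.length_append, M.wf_length, List.length_singleton]; omega
  H1 a b hab h := by
    have key := (M.shape_u N).lcpl_le a b
    cases a with
    | body σ =>
      cases b with
      | body σ' =>
        simp only [rsrc, Option.some.injEq] at h
        exact absurd (by rw [h]) hab
      | ex ε =>
        simp only [rsrc, Option.some.injEq] at h
        have h1 := M.al_le ε
        have h2 := M.pm_lt σ
        rw [← h] at h1
        have := key (Or.inr (by simp [Xu, Xu']))
        simp only [fu, fu', pp] at this ⊢
        omega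
      | s => simp [rsrc] at h
      | e =>
        simp only [rsrc, Option.some.injEq] at h
        subst h
        have := key (Or.inr (by simp [Xu, Xu']))
        simp only [fu, fu', pp, pm, n] at this ⊢
        omega
    | ex ε =>
      cases b with
      | body σ =>
        have := key (Or.inr (by simp [Xu, Xu']))
        simp only [fu, fu', pp] at this ⊢
        omega
      | ex ε' =>
        simp only [rsrc, Option.some.injEq] at h
        have := key (Or.inl fun h' => hab (by rw [M.al_inj ε ε' h h']))
        simp only [fu, fu', pp] at this ⊢
        omega
      | s => simp [rsrc] at h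
      | e =>
        simp only [rsrc, Option.some.injEq] at h
        have h1 := M.al_le ε
        cases ε <;> simp only [esrc, reduceCtorEq] at h
        case P3 κ =>
          have h2 := M.code_lt κ
          have := key (Or.inl (by simp only [fu, al]; omega))
          simp only [fu, fu', pp, al] at this ⊢
          omega
    | s =>
      cases b with
      | s => exact absurd rfl hab
      | _ => simp [rsrc] at h
    | e =>
      have h9 := M.wf_length N
      cases b with
      | e => exact absurd rfl hab
      | body σ =>
        have := key (Or.inr (by simp [Xu, Xu']))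
        simp only [fu, fu', pp] at this ⊢
        omega
      | ex ε =>
        simp only [rsrc, Option.some.injEq] at h
        cases ε <;> simp only [esrc, reduceCtorEq] at h
        case P3 κ =>
          have h2 := M.code_lt κ
          have := key (Or.inl (by simp only [fu, al]; omega))
          simp only [fu, fu', pp, al] at this ⊢
          omega
      | s => simp [rsrc] at h
  H2 a b hab h := by
    have key := (M.shape_u' N).lcpl_le a b
    cases a with
    | body σ =>
      cases b with
      | body σ' =>
        simp only [rtgt, Option.some.injEq] at h
        exact absurd (by rw [h]) hab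
      | ex ε =>
        simp only [rtgt, Option.some.injEq] at h
        have h1 := M.be_le ε
        rw [← h] at h1
        have := key (Or.inr (by simp [Xu, Xu']))
        simp only [fu, fu', pp, uu, cs_length] at this ⊢
        omega
      | s =>
        have := key (Or.inr (by simp [Xu, Xu']))
        simp only [fu, fu', pp] at this ⊢
        omega
      | e => simp [rtgt] at h
    | ex ε =>
      cases b with
      | body σ =>
        have := key (Or.inr (by simp [Xu, Xu']))
        simp only [fu, fu', pp, uu, cs_length, List.length_append, List.length_cons] at this ⊢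
        omega
      | ex ε' =>
        simp only [rtgt, Option.some.injEq] at h
        have := key (Or.inl fun h' => hab (by rw [M.be_inj ε ε' h h']))
        simp only [fu, fu', pp, uu, cs_length, List.length_append, List.length_cons] at this ⊢
        omega
      | s =>
        have := key (Or.inr (by simp [Xu, Xu']))
        simp only [fu, fu', pp] at this ⊢
        omega
      | e => simp [rtgt] at h
    | s =>
      cases b with
      | s => exact absurd rfl hab
      | e => simp [rtgt] at h
      | body σ =>
        have := key (Or.inr (by simp [Xu, Xu']))
        simp only [fu, fu', pp] at this ⊢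
        omega
      | ex ε =>
        have := key (Or.inr (by simp [Xu, Xu']))
        simp only [fu, fu', pp] at this ⊢
        omega
    | e =>
      cases b with
      | e => exact absurd rfl hab
      | _ => simp [rtgt] at h

theorem side_g (N : ℕ) : Side (M.rs N).taug M.rsrc M.rtgt (M.vv N) M.pp' where
  inr t x := (M.rs N).taug_inr t x
  inj := (M.rs N).taug_inj
  lt a := by
    cases a with
    | body σ => simpa [pp', vv, cs_length] using M.pm'_lt σ
    | ex ε => simp [pp', vv, cs_length]
    | s => simp only [fv, fv', pp', vv, List.length_cons, M.w0_length]; omega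
    | e => simp [pp', vv]
  H1 a b hab h := by
    have key := (M.shape_v N).lcpl_le a b
    cases a with
    | body σ =>
      cases b with
      | body σ' =>
        simp only [rsrc, Option.some.injEq] at h
        exact absurd (by rw [h]) hab
      | ex ε =>
        simp only [rsrc, Option.some.injEq] at h
        have h1 := M.al'_le ε
        rw [← h] at h1
        have := key (Or.inr (by simp [Xv, Xv']))
        simp only [fv, fv', pp'] at this ⊢
        omega
      | s => simp [rsrc] at h
      | e =>
        have := key (Or.inr (by simp [Xv, Xv']))
        simp only [fv, fv', pp'] at this ⊢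
        omega
    | ex ε =>
      cases b with
      | body σ =>
        have := key (Or.inr (by simp [Xv, Xv']))
        simp only [fv, fv', pp'] at this ⊢
        omega
      | ex ε' =>
        simp only [rsrc, Option.some.injEq] at h
        have := key (Or.inl fun h' => hab (by rw [M.al'_inj ε ε' h h']))
        simp only [fv, fv', pp'] at this ⊢
        omega
      | s => simp [rsrc] at h
      | e =>
        have := key (Or.inr (by simp [Xv, Xv']))
        simp only [fv, fv', pp'] at this ⊢
        omega
    | s =>
      cases b with
      | s => exact absurd rfl hab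
      | _ => simp [rsrc] at h
    | e =>
      cases b with
      | e => exact absurd rfl hab
      | body σ =>
        have := key (Or.inr (by simp [Xv, Xv']))
        simp only [fv, fv', pp'] at this ⊢
        omega
      | ex ε =>
        have := key (Or.inr (by simp [Xv, Xv']))
        simp only [fv, fv', pp'] at this ⊢
        omega
      | s => simp [rsrc] at h
  H2 a b hab h := by
    have key := (M.shape_v' N).lcpl_le a b
    cases a with
    | body σ =>
      cases b with
      | body σ' =>
        simp only [rtgt, Option.some.injEq] at h
        exact absurd (by rw [h]) hab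
      | ex ε =>
        simp only [rtgt, Option.some.injEq] at h
        have h1 := M.be'_le ε
        rw [← h] at h1
        have := key (Or.inr (by simp [Xv, Xv']))
        simp only [fv, fv', pp', vv, cs_length] at this ⊢
        omega
      | s =>
        simp only [rtgt, Option.some.injEq] at h
        subst h
        have := key (Or.inr (by simp [Xv, Xv']))
        simp only [fv, fv', pp', pm', vv, cs_length, k] at this ⊢
        omega
      | e => simp [rtgt] at h
    | ex ε =>
      cases b with
      | body σ =>
        have := key (Or.inr (by simp [Xv, Xv']))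
        simp only [fv, fv', pp', vv, cs_length, List.length_append, List.length_cons] at this ⊢
        omega
      | ex ε' =>
        simp only [rtgt, Option.some.injEq] at h
        have := key (Or.inl fun h' => hab (by rw [M.be_inj ε ε' h h']))
        simp only [fv, fv', pp', vv, cs_length, List.length_append, List.length_cons] at this ⊢
        omega
      | s =>
        simp only [rtgt, Option.some.injEq] at h
        have h2 : M.be ε < M.K := by
          cases ε <;> simp only [etgt] at h <;> (try split_ifs at h) <;>
            (try simp only [reduceCtorEq] at h)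
          case C2 κ => exact M.code_lt κ
        have := key (Or.inl (by simp only [fv']; omega))
        simp only [fv, fv', pp', vv, cs_length, List.length_append, List.length_cons] at this ⊢
        omega
      | e => simp [rtgt] at h
    | s =>
      have h9 := M.w0_length N
      cases b with
      | s => exact absurd rfl hab
      | e => simp [rtgt] at h
      | body σ =>
        have := key (Or.inr (by simp [Xv, Xv']))
        simp only [fv, fv', pp', vv, List.length_cons] at this ⊢
        omega
      | ex ε =>
        simp only [rtgt, Option.some.injEq] at h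
        have h2 : M.be ε < M.K := by
          cases ε <;> simp only [etgt] at h <;> (try split_ifs at h) <;>
            (try simp only [reduceCtorEq] at h)
          case C2 κ => exact M.code_lt κ
        have := key (Or.inl (by simp only [fv']; omega))
        simp only [fv, fv', pp', vv, List.length_cons] at this ⊢
        omega
    | e =>
      cases b with
      | e => exact absurd rfl hab
      | _ => simp [rtgt] at h

theorem good (N : ℕ) : (M.rs N).Good := ⟨M.side_h N, M.side_g N⟩

end CM

end Pool.Agent.H219_PCP
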