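import Pool.Agent.H219_PCP.F

/-!
# The simulation
-/

set_option autoImplicit false
set_option linter.unusedSectionVars false
set_option linter.unusedSimpArgs false

namespace Pool.Agent.H219_PCP

open Pool.Agent.H219_EQ Relation

namespace CM

variable {Q : Type} [DecidableEq Q] (M : CM Q) (N : ℕ)

/-- configuration -/
abbrev Cf (M : CM Q) : Type := Option (St Q M.B) × List Lt

/-- one move -/
abbrev Stp (N : ℕ) : Cf M → Cf M → Prop := (M.rs N).Step

theorem body1 (σ : St Q M.B) (x y z t : ℕ) :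
    M.Stp N (some σ, w4 (M.n σ + x) y z t) (some σ, w4 x y z (t + M.k σ)) := by
  refine ⟨by simp [rs], by simp [rs], .body σ, rfl, rfl, w4 x y z t, ?_, ?_⟩
  · simp [rs, uu, w4, cs_add]
  · simp [rs, vv, w4, cs_add]

theorem exit1 (ε : Ex Q M.B) (y z t : ℕ) :
    M.Stp N (some (M.esrc ε), w4 (M.al ε) (M.be ε + y) z t)
      (some (M.etgt ε), w4 y z (t + M.al' ε) (M.be ε)) := by
  refine ⟨by simp [rs], by simp [rs], .ex ε, rfl, rfl,
    cs y ++ Lt.D :: (cs z ++ Lt.D :: cs t), ?_, ?_⟩
  · simp [rs, uu, w4, cs_add]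
  · simp [rs, vv, w4, cs_add]

theorem body (σ : St Q M.B) (m x y z t : ℕ) :
    ReflTransGen (M.Stp N) (some σ, w4 (M.n σ * m + x) y z t) (some σ, w4 x y z (t + M.k σ * m)) := by
  induction m generalizing t with
  | zero => simpa using ReflTransGen.refl
  | succ m ih =>
    have h1 := M.body1 N σ (M.n σ * m + x) y z t
    have e1 : M.n σ + (M.n σ * m + x) = M.n σ * (m + 1) + x := by ring
    rw [e1] at h1
    have h2 := ih (t + M.k σ)
    have e2 : t + M.k σ + M.k σ * m = t + M.k σ * (m + 1) := by ring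
    rw [e2] at h2
    exact ReflTransGen.head h1 h2

theorem body' (σ : St Q M.B) (m x y z : ℕ) {w : ℕ} (hw : w = M.n σ * m + x) {v : ℕ}
    (hv : v = M.k σ * m) :
    ReflTransGen (M.Stp N) (some σ, w4 w y z 0) (some σ, w4 x y z v) := by
  have := M.body N σ m x y z 0
  rw [zero_add] at this
  rw [hw, hv]
  exact this

/-- the ending of the backward simulation, from the state `P1` -/
theorem tailP (q : Q) (j : Fin M.B) (m i y z : ℕ) (hy : y % M.B = j) :
    ReflTransGen (M.Stp N) (some (.P1 q j), w4 (M.B * m) y z i)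
      (some (.P3 q), w4 z (i + M.B * m) y 0) := by
  have h1 := M.body N (.P1 q j) m 0 y z i
  simp only [n, k, add_zero] at h1
  refine h1.trans ?_
  have ey : (j : ℕ) + M.B * (y / M.B) = y := by
    rw [← hy]
    exact Nat.mod_add_div y M.B
  have h2 := M.exit1 N (.P1 q j) (M.B * (y / M.B)) z (i + M.B * m)
  simp only [al, al', be, esrc, etgt, add_zero, ey] at h2
  refine ReflTransGen.head h2 ?_
  have h3 := M.body N (.P2 q) (y / M.B) 0 z (i + M.B * m) j
  simp only [n, k, add_zero, ey] at h3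
  refine h3.trans ?_
  have h4 := M.exit1 N (.P2 q) z (i + M.B * m) y
  simp only [al, al', be, esrc, etgt, add_zero, zero_add] at h4
  exact ReflTransGen.single h4

/-- residues -/
def kap (q : Q) (x y : ℕ) : Q × Fin M.B × Fin M.B :=
  (q, ⟨x % M.B, Nat.mod_lt _ M.hB⟩, ⟨y % M.B, Nat.mod_lt _ M.hB⟩)

/-- from the main state to the end of the reading of the two counters -/
theorem readB (q : Q) (x y z : ℕ) :
    TransGen (M.Stp N) (some (.C3 q), w4 0 x y z) (some (M.etgt (.B2 (M.kap q x y))), w4 z x y 0) := by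
  have h1 := M.exit1 N (.C3 q) x y z
  simp only [al, al', be, esrc, etgt, add_zero, zero_add] at h1
  refine TransGen.head' h1 ?_
  have ex : M.B * (x / M.B) + x % M.B = x := Nat.div_add_mod x M.B
  have ey : M.B * (y / M.B) + y % M.B = y := Nat.div_add_mod y M.B
  have h2 := M.body' N (.B1 q) (x / M.B) (x % M.B) y z (w := x) (by simp only [n]; exact ex.symm)
    (v := M.B * (x / M.B)) (by simp only [k])
  refine h2.trans ?_
  have h3 := M.exit1 N (.B1 q ⟨x % M.B, Nat.mod_lt _ M.hB⟩) y z (M.B * (x / M.B))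
  simp only [al, al', be, esrc, etgt, add_zero, zero_add, ex] at h3
  refine ReflTransGen.head h3 ?_
  have h4 := M.body' N (.B2 q ⟨x % M.B, Nat.mod_lt _ M.hB⟩) (y / M.B) (y % M.B) z x (w := y)
    (by simp only [n]; exact ey.symm) (v := M.B * (y / M.B)) (by simp only [k])
  refine h4.trans ?_
  have h5 := M.exit1 N (.B2 (M.kap q x y)) z x (M.B * (y / M.B))
  simp only [al, al', be, esrc, kap, add_zero, zero_add, ey] at h5
  exact ReflTransGen.single h5

/-- one step of the machine -/
theorem fwd (q q' : Q) (x y z : ℕ) (h : M.nxt (M.kap q x y) = some q') :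
    TransGen (M.Stp N) (some (.C3 q), w4 0 x y z)
      (some (.C3 q'), w4 0 (M.ax (M.kap q x y) * (x / M.B) + M.bx (M.kap q x y))
        (M.ay (M.kap q x y) * (y / M.B) + M.cy (M.kap q x y))
        (M.code (M.kap q x y) + (M.K + 1) * z)) := by
  refine (M.readB N q x y z).trans_left ?_
  have ex : M.B * (x / M.B) + x % M.B = x := Nat.div_add_mod x M.B
  have ey : M.B * (y / M.B) + y % M.B = y := Nat.div_add_mod y M.B
  have hn : M.nxt (M.kap q x y) ≠ none := by rw [h]; simp
  have hq : M.qn (M.kap q x y) = q' := by simp [qn, h]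
  have e1 : M.etgt (.B2 (M.kap q x y)) = .B3 (M.kap q x y) := by
    simp only [etgt, if_neg hn]
  rw [e1]
  set κ := M.kap q x y with hκ
  have hi : ((κ.2.1 : Fin M.B) : ℕ) = x % M.B := rfl
  have hj : ((κ.2.2 : Fin M.B) : ℕ) = y % M.B := rfl
  have h1 := M.body' N (.B3 κ) z 0 x y (w := z) (by simp [n]) (v := (M.K + 1) * z) (by simp [k])
  refine h1.trans ?_
  have h2 := M.exit1 N (.B3 κ) x y ((M.K + 1) * z)
  simp only [al, al', be, esrc, etgt, add_zero, zero_add] at h2
  refine ReflTransGen.head h2 ?_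
  have h3 := M.body' N (.C1 κ) (x / M.B) (x % M.B) y ((M.K + 1) * z + M.code κ) (w := x)
    (by simp only [n]; exact ex.symm) (v := M.ax κ * (x / M.B)) (by simp only [k])
  refine h3.trans ?_
  have h4 := M.exit1 N (.C1 κ) y ((M.K + 1) * z + M.code κ) (M.ax κ * (x / M.B))
  simp only [al, al', be, esrc, etgt, add_zero, zero_add, hi] at h4
  refine ReflTransGen.head h4 ?_
  have h5 := M.body' N (.C2 κ) (y / M.B) (y % M.B) ((M.K + 1) * z + M.code κ)
    (M.ax κ * (x / M.B) + M.bx κ) (w := y)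
    (by simp only [n]; exact ey.symm) (v := M.ay κ * (y / M.B)) (by simp only [k])
  refine h5.trans ?_
  have h6 := M.exit1 N (.C2 κ) ((M.K + 1) * z) (M.ax κ * (x / M.B) + M.bx κ) (M.ay κ * (y / M.B))
  simp only [al, al', be, esrc, etgt, add_zero, zero_add, hj, hq] at h6
  rw [add_comm ((M.K + 1) * z) (M.code κ)]
  refine ReflTransGen.head h6 ?_
  have h7 := M.body N (.C3 q') z 0 (M.ax κ * (x / M.B) + M.bx κ) (M.ay κ * (y / M.B) + M.cy κ)
    (M.code κ)
  simp only [n, k, add_zero] at h7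
  exact h7

/-- one step of the machine backwards -/
theorem bwd (q q' : Q) (x y z : ℕ) (h : M.nxt (M.kap q x y) = some q') :
    TransGen (M.Stp N) 
      (some (.P3 q'), w4 (M.code (M.kap q x y) + (M.K + 1) * z)
        (M.ax (M.kap q x y) * (x / M.B) + M.bx (M.kap q x y))
        (M.ay (M.kap q x y) * (y / M.B) + M.cy (M.kap q x y)) 0) (some (.P3 q), w4 z x y 0) := by
  have ex : M.B * (x / M.B) + x % M.B = x := Nat.div_add_mod x M.B
  have ex' : x % M.B + M.B * (x / M.B) = x := Nat.mod_add_div x M.B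
  have ey : M.B * (y / M.B) + y % M.B = y := Nat.div_add_mod y M.B
  have hn : M.nxt (M.kap q x y) ≠ none := by rw [h]; simp
  have hq : M.qn (M.kap q x y) = q' := by simp [qn, h]
  set κ := M.kap q x y with hκ
  have hi : ((κ.2.1 : Fin M.B) : ℕ) = x % M.B := rfl
  have hj : ((κ.2.2 : Fin M.B) : ℕ) = y % M.B := rfl
  have hκ1 : κ.1 = q := rfl
  set x' := M.ax κ * (x / M.B) + M.bx κ with hx'
  set y' := M.ay κ * (y / M.B) + M.cy κ with hy'
  have h1 := M.body' N (.P3 q') z (M.code κ) x' y' (w := M.code κ + (M.K + 1) * z)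
    (by simp only [n]; ring) (v := (M.K + 1) * z) (by simp only [k])
  have h2 := M.exit1 N (.P3 κ) x' y' ((M.K + 1) * z)
  simp only [al, al', be, esrc, etgt, add_zero, zero_add, hq] at h2
  refine TransGen.trans_right h1 (TransGen.head' h2 ?_)
  have h3 := M.body' N (.R1 κ) (x / M.B) (M.bx κ) y' ((M.K + 1) * z + M.code κ) (w := x')
    (by simp only [n]; rfl) (v := M.B * (x / M.B)) (by simp only [k])
  refine h3.trans ?_
  have h4 := M.exit1 N (.R1 κ) y' ((M.K + 1) * z + M.code κ) (M.B * (x / M.B))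
  simp only [al, al', be, esrc, etgt, add_zero, zero_add, hi, ex] at h4
  refine ReflTransGen.head h4 ?_
  have h5 := M.body' N (.R2 κ) (y / M.B) (M.cy κ) ((M.K + 1) * z + M.code κ) x (w := y')
    (by simp only [n]; rfl) (v := M.B * (y / M.B)) (by simp only [k])
  refine h5.trans ?_
  have h6 := M.exit1 N (.R2 κ) ((M.K + 1) * z + M.code κ) x (M.B * (y / M.B))
  simp only [al, al', be, esrc, etgt, add_zero, zero_add, hj, ey, if_neg hn] at h6
  refine ReflTransGen.head h6 ?_
  have h7 := M.body' N (.R3 κ) z (M.code κ) x y (w := (M.K + 1) * z + M.code κ)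
    (by simp only [n, if_neg hn]) (v := z) (by simp only [k, one_mul])
  refine h7.trans ?_
  have h8 := M.exit1 N (.R3 κ) (M.B * (x / M.B)) y z
  simp only [al, al', be, esrc, etgt, add_zero, hi, ex', if_neg hn] at h8
  refine ReflTransGen.head h8 ?_
  have h9 := M.tailP N q (κ.2.2) (x / M.B) (x % M.B) y z hj.symm
  rw [ex'] at h9
  exact h9

/-- at a stop -/
theorem turn (q : Q) (x y z : ℕ) (h : M.nxt (M.kap q x y) = none) :
    ReflTransGen (M.Stp N) (some (.C3 q), w4 0 x y z) (some (.P3 q), w4 z x y 0) := by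
  have ex' : x % M.B + M.B * (x / M.B) = x := Nat.mod_add_div x M.B
  refine (M.readB N q x y z).to_reflTransGen.trans ?_
  have e1 : M.etgt (.B2 (M.kap q x y)) = .R3 (M.kap q x y) := by
    simp only [etgt, if_pos h]
  rw [e1]
  set κ := M.kap q x y with hκ
  have hi : ((κ.2.1 : Fin M.B) : ℕ) = x % M.B := rfl
  have hj : ((κ.2.2 : Fin M.B) : ℕ) = y % M.B := rfl
  have h7 := M.body' N (.R3 κ) z 0 x y (w := z)
    (by simp only [n, if_pos h]; ring) (v := z) (by simp only [k, one_mul])
  refine h7.trans ?_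
  have h8 := M.exit1 N (.R3 κ) (M.B * (x / M.B)) y z
  simp only [al, al', be, esrc, etgt, add_zero, hi, ex', if_pos h] at h8
  refine ReflTransGen.head h8 ?_
  have h9 := M.tailP N q (κ.2.2) (x / M.B) (x % M.B) y z hj.symm
  rw [ex'] at h9
  exact h9

end CM

end Pool.Agent.H219_PCP
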