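import Pool.Agent.H219_PCP.G
import Pool.Agent.Helper599.Source2

/-!
# Halting and the equalizer
-/

set_option autoImplicit false
set_option linter.unusedSectionVars false

namespace Pool.Agent.H219_PCP

open Pool.Agent.H219_EQ Relation

section paths
variable {L T A : Type} [DecidableEq L] [DecidableEq T] [DecidableEq A] {R : RS L T A}

theorem fwd_mono (m : ℕ) (c : T × List L) (h : R.FwdN (m + 1) c) : R.FwdN m c := by
  induction m generalizing c with
  | zero => trivial
  | succ m ih =>
    obtain ⟨c', h1, h2⟩ := h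
    exact ⟨c', h1, ih c' h2⟩

theorem bwd_mono (m : ℕ) (c : T × List L) (h : R.BwdN (m + 1) c) : R.BwdN m c := by
  induction m generalizing c with
  | zero => trivial
  | succ m ih =>
    obtain ⟨c', h1, h2⟩ := h
    exact ⟨c', h1, ih c' h2⟩

theorem fwd_refl (m : ℕ) {c c' : T × List L} (h : ReflTransGen R.Step c c') (hc : R.FwdN m c') :
    R.FwdN m c := by
  induction h using ReflTransGen.head_induction_on with
  | refl => exact hc
  | head h1 _ ih => exact fwd_mono m _ ⟨_, h1, ih⟩

theorem bwd_refl (m : ℕ) {c c' : T × List L} (h : ReflTransGen R.Step c c') (hc : R.BwdN m c) :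
    R.BwdN m c' := by
  induction h with
  | refl => exact hc
  | tail _ h1 ih => exact bwd_mono m _ ⟨_, h1, ih⟩

theorem fwd_trans (m : ℕ) {c c' : T × List L} (h : TransGen R.Step c c') (hc : R.FwdN m c') :
    R.FwdN (m + 1) c := by
  obtain ⟨d, h1, h2⟩ := TransGen.head'_iff.1 h
  exact ⟨d, h1, fwd_refl m h2 hc⟩

theorem bwd_trans (m : ℕ) {c c' : T × List L} (h : TransGen R.Step c c') (hc : R.BwdN m c) :
    R.BwdN (m + 1) c' := by
  obtain ⟨d, h1, h2⟩ := TransGen.tail'_iff.1 h
  exact ⟨d, h2, bwd_refl m h1 hc⟩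

end paths

namespace CM

variable {Q : Type} [DecidableEq Q] (M : CM Q)

/-- next value of the first counter -/
def x' (q : Q) (x y : ℕ) : ℕ := M.ax (M.kap q x y) * (x / M.B) + M.bx (M.kap q x y)

/-- next value of the second counter -/
def y' (q : Q) (x y : ℕ) : ℕ := M.ay (M.kap q x y) * (y / M.B) + M.cy (M.kap q x y)

/-- the machine stops -/
inductive Halts : Q → ℕ → ℕ → Prop
  | stop (q : Q) (x y : ℕ) : M.nxt (M.kap q x y) = none → Halts q x y
  | step (q q' : Q) (x y : ℕ) : M.nxt (M.kap q x y) = some q' → Halts q' (M.x' q x y) (M.y' q x y) →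
      Halts q x y

variable {M}

theorem Halts.path (N : ℕ) {q : Q} {x y : ℕ} (h : M.Halts q x y) : ∀ z,
    ReflTransGen (M.Stp N) (some (.C3 q), w4 0 x y z) (some (.P3 q), w4 z x y 0) := by
  induction h with
  | stop q x y h => exact fun z => M.turn N q x y z h
  | step q q' x y h _ ih =>
    intro z
    exact ((M.fwd N q q' x y z h).to_reflTransGen.trans (ih _)).trans
      (M.bwd N q q' x y z h).to_reflTransGen

theorem not_halts (N : ℕ) : ∀ (m : ℕ) (q : Q) (x y z : ℕ), ¬ M.Halts q x y →
    (M.rs N).FwdN m (some (.C3 q), w4 0 x y z) ∧ (M.rs N).BwdN m (some (.P3 q), w4 z x y 0) := by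
  intro m
  induction m with
  | zero => exact fun _ _ _ _ _ => ⟨trivial, trivial⟩
  | succ m ih =>
    intro q x y z h
    cases hn : M.nxt (M.kap q x y) with
    | none => exact absurd (Halts.stop q x y hn) h
    | some q' =>
      have h' : ¬ M.Halts q' (M.x' q x y) (M.y' q x y) := fun h'' => h (Halts.step q q' x y hn h'')
      have h1 := ih q' (M.x' q x y) (M.y' q x y) (M.code (M.kap q x y) + (M.K + 1) * z) h'
      exact ⟨fwd_trans m (M.fwd N q q' x y z hn) h1.1, bwd_trans m (M.bwd N q q' x y z hn) h1.2⟩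

theorem ends (N : ℕ) : RS.Ends (M.rs N) .s .e (some (.C3 M.q0)) (some (.P3 M.q0)) (M.w0 N) (M.wf N)
    Lt.dol Lt.pnd where
  ss := rfl
  ts := rfl
  se := rfl
  te := rfl
  us := rfl
  vs := rfl
  ue := rfl
  ve := rfl
  ps := rfl
  pe := rfl
  n0 := by
    intro h
    have := M.w0_length N
    rw [h] at this
    simp at this
  nf := by
    intro h
    have := M.wf_length N
    rw [h] at this
    simp at this
  t0 := by simp [rs]
  tf := by simp [rs]
  uniq_s a h := by cases a <;> simp [rs, rsrc] at h ⊢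
  uniq_e a h := by cases a <;> simp [rs, rtgt] at h ⊢

/-- the equalizer is nontrivial if and only if the machine stops -/
theorem main_iff (N : ℕ) : (∃ z, z ≠ 1 ∧ (M.rs N).H z = (M.rs N).G z) ↔ M.Halts M.q0 N 0 := by
  constructor
  · rintro ⟨z, h1, h2⟩
    by_contra h
    exact h1 (RS.trivial_of_infinite (M.good N) (M.ends N) (fun m => (not_halts N m _ _ _ _ h).1)
      (fun m => (not_halts N m _ _ _ _ h).2) z h2)
  · intro h
    exact RS.exists_of_path (M.ends N) (h.path N M.K)

end CM

section source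
open Pool.Agent.Helper599.Core Pool.Agent.Helper599.Source

variable {Q : Type} [DecidableEq Q] [Fintype Q]

/-- a pair of residues as a function -/
def rr {B : ℕ} (i j : Fin B) : Bool → Fin B := fun t => if t then i else j

/-- the machine of a system on residue classes -/
noncomputable def toCM (S : Sys Q Bool) (q0 : Q)
    (hS : ∀ q r, S.nxt q r ≠ none → ∀ j, S.b q r j < S.a q r j) : CM Q where
  B := S.B
  hB := S.hB
  nxt κ := S.nxt κ.1 (rr κ.2.1 κ.2.2)
  ax κ := if S.nxt κ.1 (rr κ.2.1 κ.2.2) = none then 1 else S.a κ.1 (rr κ.2.1 κ.2.2) true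
  bx κ := if S.nxt κ.1 (rr κ.2.1 κ.2.2) = none then 0 else S.b κ.1 (rr κ.2.1 κ.2.2) true
  ay κ := if S.nxt κ.1 (rr κ.2.1 κ.2.2) = none then 1 else S.a κ.1 (rr κ.2.1 κ.2.2) false
  cy κ := if S.nxt κ.1 (rr κ.2.1 κ.2.2) = none then 0 else S.b κ.1 (rr κ.2.1 κ.2.2) false
  hx κ := by
    split_ifs with h
    · exact Nat.one_pos
    · exact hS _ _ h _
  hy κ := by
    split_ifs with h
    · exact Nat.one_pos
    · exact hS _ _ h _
  K := Fintype.card (Q × Fin S.B × Fin S.B)
  code κ := Fintype.equivFin (Q × Fin S.B × Fin S.B) κ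
  code_lt κ := (Fintype.equivFin (Q × Fin S.B × Fin S.B) κ).2
  code_inj κ κ' h := (Fintype.equivFin (Q × Fin S.B × Fin S.B)).injective (Fin.ext h)
  q0 := q0

variable (S : Sys Q Bool) (q0 : Q) (hS : ∀ q r, S.nxt q r ≠ none → ∀ j, S.b q r j < S.a q r j)

theorem rr_res (n : Bool → ℕ) : rr (⟨n true % S.B, Nat.mod_lt _ S.hB⟩ : Fin S.B)
    ⟨n false % S.B, Nat.mod_lt _ S.hB⟩ = S.res n := by
  funext t
  cases t <;> simp [rr, Sys.res]

theorem nxt_eq (q : Q) (n : Bool → ℕ) :
    (toCM S q0 hS).nxt ((toCM S q0 hS).kap q (n true) (n false)) = S.nxt q (S.res n) :=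
  congrArg (S.nxt q) (rr_res S n)

theorem nn_true (q : Q) (n : Bool → ℕ) (h : S.nxt q (S.res n) ≠ none) :
    (toCM S q0 hS).x' q (n true) (n false) = S.nn q n true := by
  refine (congrArg (fun r : Bool → Fin S.B => (if S.nxt q r = none then 1 else S.a q r true) *
    (n true / S.B) + (if S.nxt q r = none then 0 else S.b q r true)) (rr_res S n)).trans ?_
  simp only [if_neg h, Sys.nn]

theorem nn_false (q : Q) (n : Bool → ℕ) (h : S.nxt q (S.res n) ≠ none) :
    (toCM S q0 hS).y' q (n true) (n false) = S.nn q n false := by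
  refine (congrArg (fun r : Bool → Fin S.B => (if S.nxt q r = none then 1 else S.a q r false) *
    (n false / S.B) + (if S.nxt q r = none then 0 else S.b q r false)) (rr_res S n)).trans ?_
  simp only [if_neg h, Sys.nn]

theorem halts_of_sys {o : Option Q} {n : Bool → ℕ} (h : S.Halts o n) : ∀ q, o = some q →
    (toCM S q0 hS).Halts q (n true) (n false) := by
  induction h with
  | stop n => intro q hq; simp at hq
  | step q n _ ih =>
    intro q1 hq1
    obtain rfl : q = q1 := by simpa using hq1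
    cases hn : S.nxt q (S.res n) with
    | none => exact CM.Halts.stop _ _ _ (by rw [nxt_eq, hn])
    | some q' =>
      refine CM.Halts.step _ q' _ _ (by rw [nxt_eq, hn]) ?_
      have h1 := ih q' hn
      rw [nn_true S q0 hS q n (by rw [hn]; simp), nn_false S q0 hS q n (by rw [hn]; simp)]
      exact h1

theorem sys_of_halts {q : Q} {x y : ℕ} (h : (toCM S q0 hS).Halts q x y) : ∀ n : Bool → ℕ,
    n true = x → n false = y → S.Halts (some q) n := by
  induction h with
  | stop q x y h =>
    rintro n rfl rfl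
    rw [nxt_eq] at h
    apply Sys.Halts.step
    rw [h]
    exact Sys.Halts.stop _
  | step q q' x y h _ ih =>
    rintro n rfl rfl
    rw [nxt_eq] at h
    apply Sys.Halts.step
    rw [h]
    exact ih _ (nn_true S q0 hS q n (by rw [h]; simp)).symm (nn_false S q0 hS q n (by rw [h]; simp)).symm

theorem halts_iff (N : ℕ) : (toCM S q0 hS).Halts q0 N 0 ↔ S.Halts (some q0) (ini N) :=
  ⟨fun h => sys_of_halts S q0 hS h (ini N) rfl rfl, fun h => halts_of_sys S q0 hS h q0 rfl⟩

end source

end Pool.Agent.H219_PCP
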