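import Pool.Agent.H219_PCP.H
import Pool.Agent.H219_PCP.Defs

/-!
# Undecidability
-/

set_option autoImplicit false
set_option linter.unusedSectionVars false

namespace Pool.Agent.H219_PCP

open FreeGroup hiding norm map_mul map_inv map_one
open Pool.Agent.H219_EQ

section transfer
variable {A Δ : Type} [DecidableEq A] [DecidableEq Δ] {n m : ℕ}

/-- renaming of the letters -/
def tr (eA : A ≃ Fin n) (eD : Δ ≃ Fin m) (U : A → List (Δ × Bool)) (i : Fin n) :
    List (Fin m × Bool) :=
  (U (eA.symm i)).map (fun x => (eD x.1, x.2))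

theorem tr_red (eA : A ≃ Fin n) (eD : Δ ≃ Fin m) (U : A → List (Δ × Bool))
    (h : ∀ a, IsReduced (U a)) (i : Fin n) : IsReduced (tr eA eD U i) := by
  have h1 := h (eA.symm i)
  unfold FreeGroup.IsReduced tr at *
  rw [List.isChain_map]
  refine h1.imp ?_
  intro a b hab h2
  exact hab (eD.injective h2)

theorem toHom_tr (eA : A ≃ Fin n) (eD : Δ ≃ Fin m) (U : A → List (Δ × Bool)) (z : FreeGroup A) :
    toHom (tr eA eD U) (freeGroupCongr eA z) = freeGroupCongr eD (hom U z) := by
  have h : (toHom (tr eA eD U)).comp (freeGroupCongr eA).toMonoidHom =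
      (freeGroupCongr eD).toMonoidHom.comp (hom U) := by
    ext a
    simp only [MonoidHom.comp_apply, MulEquiv.toMonoidHom_eq_coe, MonoidHom.coe_coe,
      freeGroupCongr_apply, map.of, hom_of, toHom, FreeGroup.lift_apply_of, tr,
      Equiv.symm_apply_apply, map.mk]
  exact DFunLike.congr_fun h z

theorem ok_inj {U : A → List (Δ × Bool)} {P : A → ℕ} (h : Ok U P) :
    Function.Injective (hom U) := by
  rw [injective_iff_map_eq_one]
  intro z hz
  by_contra hne
  rcases hw : z.toWord with _ | ⟨x, l⟩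
  · rw [toWord_eq_nil_iff] at hw
    exact hne hw
  · have hred : IsReduced (x :: l) := by
      rw [← hw]
      exact isReduced_toWord
    obtain ⟨R, hR⟩ := start h l x hred
    rw [← hw, mk_toWord, hz, toWord_one] at hR
    have h1 := sP_lt h x
    have h2 := congrArg List.length hR
    rw [List.length_nil, List.length_append, List.length_take] at h2
    omega

theorem tr_inj (eA : A ≃ Fin n) (eD : Δ ≃ Fin m) {U : A → List (Δ × Bool)} {P : A → ℕ}
    (h : Ok U P) : Function.Injective (toHom (tr eA eD U)) := by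
  intro x y hxy
  have hx : freeGroupCongr eA ((freeGroupCongr eA).symm x) = x := MulEquiv.apply_symm_apply _ _
  have hy : freeGroupCongr eA ((freeGroupCongr eA).symm y) = y := MulEquiv.apply_symm_apply _ _
  rw [← hx, ← hy, toHom_tr, toHom_tr] at hxy
  have h1 := ok_inj h ((freeGroupCongr eD).injective hxy)
  rw [← hx, ← hy, h1]

theorem tr_iff (eA : A ≃ Fin n) (eD : Δ ≃ Fin m) (U V : A → List (Δ × Bool)) :
    (∃ x, x ≠ 1 ∧ toHom (tr eA eD U) x = toHom (tr eA eD V) x) ↔
      ∃ z, z ≠ 1 ∧ hom U z = hom V z := by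
  constructor
  · rintro ⟨x, h1, h2⟩
    have hx : freeGroupCongr eA ((freeGroupCongr eA).symm x) = x := MulEquiv.apply_symm_apply _ _
    refine ⟨(freeGroupCongr eA).symm x, ?_, ?_⟩
    · intro h
      rw [h, MulEquiv.map_one] at hx
      exact h1 hx.symm
    · rw [← hx, toHom_tr, toHom_tr] at h2
      exact (freeGroupCongr eD).injective h2
  · rintro ⟨z, h1, h2⟩
    refine ⟨freeGroupCongr eA z, ?_, ?_⟩
    · intro h
      exact h1 ((freeGroupCongr eA).injective (by rw [h, MulEquiv.map_one]))
    · rw [toHom_tr, toHom_tr, h2]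

end transfer

/-- families of words with a block whose length is a multiple of the parameter -/
theorem primrec_words {n m : ℕ} (pre post : Fin n → List (Fin m × Bool)) (d : Fin n → ℕ)
    (c : Fin m × Bool) : Primrec (fun (N : ℕ) (i : Fin n) =>
      pre i ++ ((List.range (d i * N)).map (fun _ => c) ++ post i)) := by
  apply Primrec.fin_curry.2
  have h1 : Primrec (fun p : ℕ × Fin n => pre p.2) := (Primrec.dom_finite pre).comp Primrec.snd
  have h2 : Primrec (fun p : ℕ × Fin n => post p.2) := (Primrec.dom_finite post).comp Primrec.snd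
  have h3 : Primrec (fun p : ℕ × Fin n => d p.2 * p.1) :=
    Primrec.nat_mul.comp ((Primrec.dom_finite d).comp Primrec.snd) Primrec.fst
  have h4 : Primrec (fun p : ℕ × Fin n => (List.range (d p.2 * p.1)).map (fun _ => c)) :=
    Primrec.list_map (Primrec.list_range.comp h3) (Primrec.const c).to₂
  exact Primrec.list_append.comp h1 (Primrec.list_append.comp h4 h2)

theorem cs_eq_range (N : ℕ) : cs N = (List.range N).map (fun _ => Lt.c) := by
  induction N with
  | zero => rfl
  | succ N ih =>
    rw [List.range_succ, List.map_append, ← ih, List.map_singleton]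
    have := cs_add N 1
    rw [this]
    rfl

section instances
variable {Q : Type} [DecidableEq Q] (M : CM Q) {n m : ℕ}
  (eA : Ru Q M.B ≃ Fin n) (eD : Dl Lt (Option (St Q M.B)) ≃ Fin m)

/-- words between state letters, renamed -/
theorem primrec_side (τ : Option (St Q M.B) → Dl Lt (Option (St Q M.B)) × Bool)
    (src tgt : Ru Q M.B → Option (St Q M.B)) (u : ℕ → Ru Q M.B → List Lt)
    (pre post : Ru Q M.B → List Lt) (d : Ru Q M.B → ℕ)
    (hu : ∀ N a, u N a = pre a ++ (cs (d a * N) ++ post a)) :
    Primrec (fun N : ℕ => tr eA eD (W τ src tgt (u N))) := by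
  refine (primrec_words
    (fun i => (τ (src (eA.symm i)) :: ps (Option (St Q M.B)) (pre (eA.symm i))).map
      (fun x : Dl Lt (Option (St Q M.B)) × Bool => (eD x.1, x.2)))
    (fun i => (ps (Option (St Q M.B)) (post (eA.symm i)) ++ [fl (τ (tgt (eA.symm i)))]).map
      (fun x : Dl Lt (Option (St Q M.B)) × Bool => (eD x.1, x.2)))
    (fun i => d (eA.symm i)) (eD (Sum.inl Lt.c), true)).of_eq ?_
  intro N
  funext i
  unfold tr W
  rw [hu N, cs_eq_range]
  simp [ps, List.map_append, List.map_map, Function.comp_def]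

theorem primrec_h : Primrec (fun N : ℕ => tr eA eD (W (tauh Lt) M.rsrc M.rtgt (M.uu N))) := by
  refine primrec_side M eA eD _ _ _ _
    (fun a => match a with | .e => cs M.K ++ [Lt.D] | a => M.uu 0 a)
    (fun a => match a with | .e => Lt.D :: (cs 0 ++ Lt.D :: cs 0) ++ [Lt.pnd] | _ => [])
    (fun a => match a with | .e => 1 | _ => 0) ?_
  intro N a
  cases a <;> simp [CM.uu, CM.wf, w4, cs_zero]

theorem primrec_g (τ : Option (St Q M.B) → Dl Lt (Option (St Q M.B)) × Bool) :
    Primrec (fun N : ℕ => tr eA eD (W τ M.rsrc M.rtgt (M.vv N))) := by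
  refine primrec_side M eA eD _ _ _ _
    (fun a => match a with | .s => [Lt.dol, Lt.D] | a => M.vv 0 a)
    (fun a => match a with | .s => Lt.D :: (cs 0 ++ Lt.D :: cs M.K) | _ => [])
    (fun a => match a with | .s => 1 | _ => 0) ?_
  intro N a
  cases a <;> simp [CM.vv, CM.w0, w4, cs_zero]

end instances

open Pool.Agent.Helper599.Core Pool.Agent.Helper599.Source in
/-- the Post correspondence problem for free groups of suitable fixed ranks is undecidable, even for
injective homomorphisms -/
theorem main : ∃ n m : ℕ,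
    ¬ ∃ P : (Fin n → List (Fin m × Bool)) × (Fin n → List (Fin m × Bool)) → Prop,
      ComputablePred P ∧ ∀ p, (∀ i, FreeGroup.IsReduced (p.1 i)) → (∀ i, FreeGroup.IsReduced (p.2 i)) →
        Function.Injective (toHom p.1) → Function.Injective (toHom p.2) →
        (P p ↔ ∃ x : FreeGroup (Fin n), x ≠ 1 ∧ toHom p.1 x = toHom p.2 x) := by
  classical
  obtain ⟨Q, fQ, S, q0, Nf, -, hS, hN, hu⟩ := exists_sys2
  let _ : Fintype Q := Fintype.ofFinite Q
  let M : CM Q := toCM S q0 hS
  let eA := Fintype.equivFin (Ru Q M.B)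
  let eD := Fintype.equivFin (Dl Lt (Option (St Q M.B)))
  refine ⟨Fintype.card (Ru Q M.B), Fintype.card (Dl Lt (Option (St Q M.B))), ?_⟩
  rintro ⟨P, hP, hPP⟩
  apply hu
  let F : ℕ → (Fin (Fintype.card (Ru Q M.B)) → List (Fin (Fintype.card (Dl Lt (Option (St Q M.B)))) × Bool)) ×
      (Fin (Fintype.card (Ru Q M.B)) → List (Fin (Fintype.card (Dl Lt (Option (St Q M.B)))) × Bool)) :=
    fun N => (tr eA eD (W (tauh Lt) M.rsrc M.rtgt (M.uu N)),
      tr eA eD (W (M.rs 0).taug M.rsrc M.rtgt (M.vv N)))
  have hF : Computable F := ((primrec_h M eA eD).pair (primrec_g M eA eD _)).to_comp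
  refine ComputablePred.computable_of_manyOneReducible (q := P) ⟨fun k => F (Nf k), hF.comp hN, ?_⟩ hP
  intro k
  have okh := side_ok (M.side_h (Nf k))
  have okg := side_ok (M.side_g (Nf k))
  rw [hPP (F (Nf k)) (tr_red eA eD _ okh.red) (tr_red eA eD _ okg.red)
    (tr_inj eA eD okh) (tr_inj eA eD okg)]
  refine Iff.trans ?_ (tr_iff eA eD _ _).symm
  refine (halts_iff S q0 hS (Nf k)).symm.trans ?_
  exact (CM.main_iff (M := M) (Nf k)).symm

end Pool.Agent.H219_PCP
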